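import Pool.Agent.H547U4.Stm
import Pool.Agent.H547S1.Asm

/-!
# Assembly
-/

set_option autoImplicit false

namespace Pool.Agent.H547U4

open Pool.Agent.H547R6 Pool.Agent.H547R7 Pool.Agent.H547R8 Pool.Agent.NPC Pool.Agent.H547S1

theorem NotC_mono {m s t t' M : ℕ} {g : ℕ → BF m} (h : NotC m s t M g) (ht : t ≤ t') :
    NotC m s t' M g := by
  obtain ⟨l, s1, t1, h1, h2, h3, h4⟩ := h
  exact ⟨l, s1, t1, h1, h2, h3.trans ht, h4⟩

theorem MB_sub_Mon : MB ⊆ Mon := by
  intro f hf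
  rcases hf with rfl | rfl
  · intro x y hxy hx
    have h0 := hxy 0
    have h1 := hxy 1
    revert hx
    simp only [Bool.and_eq_true]
    exact fun h => ⟨h0 h.1, h1 h.2⟩
  · intro x y hxy hx
    have h0 := hxy 0
    have h1 := hxy 1
    revert hx
    simp only [Bool.or_eq_true]
    exact fun h => h.imp h0 h1

theorem not_zero (hG : Y_G) (h1 : S_PMO) : ¬ PkeNot 0 := by
  rintro ⟨S, q, hS, h⟩
  exact h1 MB MB_sub_Mon ⟨S, q, hS, fun n hn s hs j hj => hG _ _ _ _ (h n hn s hs) j hj⟩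

/-- the bound for the probability that no block is valid -/
theorem pow_bound (h e n : ℕ) (p : ℝ) (hp0 : 0 ≤ p) (hp1 : p ≤ 1)
    (hp : 1 / (2 * (h : ℝ) + 1) - (e : ℝ) * (1 / 2) ^ n ≤ p) :
    (1 - p) ^ ((2 * h + 1) * n) ≤
      (3 / 4 : ℝ) ^ n + (((2 * h + 1) * n * e : ℕ) : ℝ) * (3 / 4) ^ n := by
  set x : ℝ := 1 - 1 / (2 * (h : ℝ) + 1) with hx
  set y : ℝ := 1 - p with hy
  set N := (2 * h + 1) * n with hN
  set δ : ℝ := (e : ℝ) * (1 / 2) ^ n with hδ
  have hδ0 : 0 ≤ δ := by positivity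
  have hden : (0 : ℝ) < 2 * (h : ℝ) + 1 := by positivity
  have hx0 : 0 ≤ x := by
    rw [hx, sub_nonneg, div_le_one hden]
    linarith [(Nat.cast_nonneg h : (0 : ℝ) ≤ (h : ℝ))]
  have hx1 : x ≤ 1 := by
    rw [hx]
    have : 0 ≤ 1 / (2 * (h : ℝ) + 1) := by positivity
    linarith
  have hy0 : 0 ≤ y := by rw [hy]; linarith
  have hy1 : y ≤ 1 := by rw [hy]; linarith
  have hyx : y ≤ x + δ := by rw [hy, hx]; linarith
  -- power bound
  have key : ∀ N : ℕ, y ^ N ≤ x ^ N + N * δ := by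
    intro N
    induction N with
    | zero => simp
    | succ N ih =>
      have hyN : y ^ N ≤ 1 := pow_le_one₀ hy0 hy1
      have hyN0 : 0 ≤ y ^ N := pow_nonneg hy0 N
      calc y ^ (N + 1) = y ^ N * y := pow_succ _ _
        _ ≤ y ^ N * (x + δ) := mul_le_mul_of_nonneg_left hyx hyN0
        _ = y ^ N * x + y ^ N * δ := by ring
        _ ≤ (x ^ N + N * δ) * x + 1 * δ :=
            add_le_add (mul_le_mul_of_nonneg_right ih hx0) (mul_le_mul_of_nonneg_right hyN hδ0)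
        _ = x ^ (N + 1) + N * δ * x + δ := by ring
        _ ≤ x ^ (N + 1) + N * δ * 1 + δ := by
            have : N * δ * x ≤ N * δ * 1 := mul_le_mul_of_nonneg_left hx1 (by positivity)
            linarith
        _ = x ^ (N + 1) + ((N + 1 : ℕ) : ℝ) * δ := by push_cast; ring
  have hxe : x ≤ Real.exp (-(1 / (2 * (h : ℝ) + 1))) := by
    have := Real.add_one_le_exp (-(1 / (2 * (h : ℝ) + 1)))
    rw [hx]
    linarith
  have hxN : x ^ N ≤ (3 / 4 : ℝ) ^ n := by
    have h1 : x ^ (2 * h + 1) ≤ 3 / 4 := by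
      calc x ^ (2 * h + 1) ≤ (Real.exp (-(1 / (2 * (h : ℝ) + 1)))) ^ (2 * h + 1) :=
            pow_le_pow_left₀ hx0 hxe _
        _ = Real.exp (((2 * h + 1 : ℕ) : ℝ) * (-(1 / (2 * (h : ℝ) + 1)))) := by
            rw [← Real.exp_nat_mul]
        _ = Real.exp (-1) := by
            congr 1
            push_cast
            field_simp
        _ ≤ 3 / 4 := by
            rw [Real.exp_neg]
            have h2 : (2 : ℝ) ≤ Real.exp 1 := by
              have := Real.add_one_le_exp (1 : ℝ)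
              linarith
            have h3 : (Real.exp 1)⁻¹ ≤ (2 : ℝ)⁻¹ := inv_anti₀ (by norm_num) h2
            linarith [h3, (by norm_num : (2 : ℝ)⁻¹ ≤ 3 / 4)]
    rw [hN, pow_mul]
    exact pow_le_pow_left₀ (pow_nonneg hx0 _) h1 _
  have hδ2 : (N : ℝ) * δ ≤ (((2 * h + 1) * n * e : ℕ) : ℝ) * (3 / 4) ^ n := by
    rw [hδ, hN]
    have h4 : (1 / 2 : ℝ) ^ n ≤ (3 / 4) ^ n := pow_le_pow_left₀ (by norm_num) (by norm_num) _
    have h5 : (((2 * h + 1) * n : ℕ) : ℝ) * ((e : ℝ) * (1 / 2) ^ n) =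
        (((2 * h + 1) * n * e : ℕ) : ℝ) * (1 / 2) ^ n := by push_cast; ring
    rw [h5]
    exact mul_le_mul_of_nonneg_left h4 (by positivity)
  calc y ^ N ≤ x ^ N + N * δ := key N
    _ ≤ _ := add_le_add hxN hδ2

theorem pr_and_ge {Ω : Type} [Fintype Ω] [Nonempty Ω] (a : Ω → Bool) (c : Ω → Bool) :
    pr a - pr (fun x => !c x) ≤ pr fun x => a x && c x := by
  unfold pr
  have hc : (0 : ℝ) < (Fintype.card Ω : ℝ) := by exact_mod_cast Fintype.card_pos
  rw [← sub_div, div_le_div_iff_of_pos_right hc, sub_le_iff_le_add]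
  norm_cast
  classical
  refine (Finset.card_le_card ?_).trans (Finset.card_union_le _ _)
  intro x hx
  simp only [Finset.mem_filter, Finset.mem_univ, true_and, Finset.mem_union, Bool.and_eq_true,
    Bool.not_eq_true'] at hx ⊢
  cases h : c x
  · exact Or.inr rfl
  · exact Or.inl ⟨hx, rfl⟩

theorem pr_le_one {Ω : Type} [Fintype Ω] (p : Ω → Bool) : pr p ≤ 1 := by
  unfold pr
  refine div_le_one_of_le₀ ?_ (Nat.cast_nonneg _)
  exact_mod_cast Finset.card_le_univ _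

theorem two_pow_size_le (N : ℕ) (hN : 1 ≤ N) : 2 ^ Nat.size N ≤ 2 * N := by
  have h1 : 2 ^ (Nat.size N - 1) ≤ N := by
    rw [← Nat.lt_size]
    have : 0 < Nat.size N := Nat.size_pos.2 hN
    omega
  have h2 : 0 < Nat.size N := Nat.size_pos.2 hN
  calc 2 ^ Nat.size N = 2 * 2 ^ (Nat.size N - 1) := by
        rw [← pow_succ']
        congr 1
        omega
    _ ≤ 2 * N := Nat.mul_le_mul_left _ h1

theorem not_one (hN : S_NEG) (h1 : Y_H1) (h2 : Y_H2) (c1 : Y_C1) (c2 : Y_C2) (c3 : Y_C3)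
    (hD : Y_D) (e1 : Y_E1) (e3 : Y_E3) (f1 : Y_F1) (f2 : Y_F2) (hP : PKE) : PkeNot 1 := by
  obtain ⟨nAdd, nLe, nK, nP, nE, nC⟩ := hN
  obtain ⟨S, ⟨hpk, hsk, henc, hdec⟩, herr, hsec⟩ := hP
  obtain ⟨encB, hEB, hSpB⟩ := c1 S henc
  obtain ⟨encN, hEN, hSpR⟩ := hD.1 (Sb S encB) (NB S) hEB
  obtain ⟨decN, hDN, hSpD⟩ := hD.2 S (NB S) hdec
  set SN := rep (Sb S encB) (NB S) encN decN with hSN
  obtain ⟨q, hq⟩ := f1 S encB encN decN (NB S) hpk henc hEB hSpB hSpR
  have hNB : ∀ n, (NB S).eval n = (2 * hB (S.e.eval n) n + 1) * n := by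
    intro n
    unfold NB hB
    simp [Polynomial.eval_add, Polynomial.eval_mul]
  refine ⟨SN, SN.len * (2 * q + 3) + 2, ⟨⟨hpk, hsk, hEN, hDN⟩, ?_, ?_⟩, ?_⟩
  · -- correctness
    intro b
    have n1 : Neg fun n => (3 / 4 : ℝ) ^ n + (((NB S * S.e).eval n : ℕ) : ℝ) * (3 / 4) ^ n :=
      nAdd _ _ nE (nP _ (NB S * S.e) nE)
    refine nLe _ (fun n => ((3 / 4 : ℝ) ^ n + (((NB S * S.e).eval n : ℕ) : ℝ) * (3 / 4) ^ n) +
      S.err n b) 1 (nAdd _ _ n1 (herr b)) ?_
    intro n hn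
    have h0 : 0 ≤ SN.err n b := pr_nn _
    rw [abs_of_nonneg h0]
    refine (e3 S encB encN decN (NB S) hSpB hSpR hSpD n b hn).trans ?_
    refine add_le_add ?_ le_rfl
    have h3 := e1 (S.e.eval n) n hn
    rw [hNB]
    have h5 := pow_bound (hB (S.e.eval n) n) (S.e.eval n) n
      (pr fun Z : Fin (2 * hB (S.e.eval n) n) → Bool =>
        decide ((List.ofFn Z).count true = hB (S.e.eval n) n) &&
          (coinB (S.e.eval n) n (List.ofFn Z)).isSome) (pr_nn _) (pr_le_one _) ?_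
    · refine h5.trans (le_of_eq ?_)
      rw [Polynomial.eval_mul, hNB]
    · have h6 := pr_and_ge (fun Z : Fin (2 * hB (S.e.eval n) n) → Bool =>
        decide ((List.ofFn Z).count true = hB (S.e.eval n) n))
        (fun Z => (coinB (S.e.eval n) n (List.ofFn Z)).isSome)
      have h7 : (fun Z : Fin (2 * hB (S.e.eval n) n) → Bool =>
          !(coinB (S.e.eval n) n (List.ofFn Z)).isSome) =
          fun Z => (coinB (S.e.eval n) n (List.ofFn Z)).isNone := by
        funext Z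
        cases coinB (S.e.eval n) n (List.ofFn Z) <;> rfl
      rw [h7] at h6
      linarith [h3.1, h3.2]
  · -- security
    intro A t hA
    obtain ⟨A₁, hA₁, hS₁⟩ := h1 (Sb S encB) (NB S) A t hEB hA
    obtain ⟨A₂, hA₂, hS₂⟩ := c2 S A₁ (NB S + (NB S * (Sb S encB).e + t)) hA₁
    have h8 := hsec A₂ (2 * ((S.e + 1) * Polynomial.X) +
      (NB S + (NB S * (Sb S encB).e + t))) hA₂
    have h9 := nP _ (2 * NB S) h8
    refine nLe _ (fun n => |((((2 * NB S).eval n : ℕ) : ℝ) *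
      (S.acp A₂ (2 * ((S.e + 1) * Polynomial.X) + (NB S + (NB S * (Sb S encB).e + t))) n true -
      S.acp A₂ (2 * ((S.e + 1) * Polynomial.X) + (NB S + (NB S * (Sb S encB).e + t))) n false))|)
      1 (fun c => ?_) ?_
    · obtain ⟨M, hM⟩ := h9 c
      exact ⟨M, fun n hn => by rw [abs_abs]; exact hM n hn⟩
    · intro n hn
      rw [h2 (Sb S encB) (NB S) encN decN A A₁ t hSpR hS₁ n,
        c3 S encB A₁ A₂ _ hSpB hS₂ n true hn, c3 S encB A₁ A₂ _ hSpB hS₂ n false hn, abs_mul,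
        abs_mul]
      refine mul_le_mul_of_nonneg_right ?_ (abs_nonneg _)
      rw [abs_of_nonneg (by positivity), abs_of_nonneg (by positivity)]
      have hN1 : 1 ≤ (NB S).eval n := by
        rw [hNB]
        exact Nat.mul_pos (Nat.succ_pos _) hn
      have h10 := two_pow_size_le ((NB S).eval n) hN1
      have h11 : (2 * NB S).eval n = 2 * (NB S).eval n := by
        simp [Polynomial.eval_mul]
      rw [h11]
      exact_mod_cast h10
  · intro n hn s hs
    have h12 := f2 (SN.e.eval n) (q.eval n) (SN.len.eval n)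
      (fun j z => (SN.ct n s false (List.ofFn fun i => z i.succ)).getD j false)
      (fun j z => (SN.ct n s true (List.ofFn fun i => z i.succ)).getD j false)
      (fun j hj => ⟨hq n hn s hs false j hj, hq n hn s hs true j hj⟩)
    have h13 : (SN.len * (2 * q + 3) + 2).eval n =
        SN.len.eval n * (2 * q.eval n + 3) + 2 := by
      simp [Polynomial.eval_add, Polynomial.eval_mul]
    rw [h13]
    convert h12 using 2
    funext z
    cases h : z 0 <;> simp

theorem main_of (hN : S_NEG) (hM : S_PMO) (h1 : Y_H1) (h2 : Y_H2) (c1 : Y_C1) (c2 : Y_C2)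
    (c3 : Y_C3) (hD : Y_D) (e1 : Y_E1) (e3 : Y_E3) (f1 : Y_F1) (f2 : Y_F2) (hG : Y_G) (t : ℕ) :
    PkeNot t ↔ 1 ≤ t ∧ PKE := by
  constructor
  · intro h
    refine ⟨?_, ?_⟩
    · by_contra h3
      have : t = 0 := by omega
      subst this
      exact not_zero hG hM h
    · obtain ⟨S, q, hS, -⟩ := h
      exact ⟨S, hS⟩
  · rintro ⟨ht, hP⟩
    obtain ⟨S, q, hS, h⟩ := not_one hN h1 h2 c1 c2 c3 hD e1 e3 f1 f2 hP
    exact ⟨S, q, hS, fun n hn s hs => NotC_mono (h n hn s hs) ht⟩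

end Pool.Agent.H547U4
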