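import Pool.Agent.H547S1.Stm

/-!
# Public-key encryption with few NOT gates: definitions
-/

set_option autoImplicit false

namespace Pool.Agent.H547U4

open Pool.Agent.H547R6 Pool.Agent.H547R7 Pool.Agent.H547R8 Pool.Agent.NPC Pool.Agent.H547S1

/-- Circuits with AND, OR (fan-in two) and NOT gates on `m` inputs, given by the list of the
functions computed by the gates, the last gate first. The first number counts the AND and OR
gates, the second one the NOT gates. There are no constants. -/
inductive AN (m : ℕ) : ℕ → ℕ → List (BF m) → Prop
  | nil : AN m 0 0 []
  | not (s t : ℕ) (l : List (BF m)) (a : BF m) (h : AN m s t l) (ha : Avail l a) :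
      AN m s (t + 1) ((fun x => !a x) :: l)
  | and (s t : ℕ) (l : List (BF m)) (a b : BF m) (h : AN m s t l) (ha : Avail l a)
      (hb : Avail l b) : AN m (s + 1) t ((fun x => a x && b x) :: l)
  | or (s t : ℕ) (l : List (BF m)) (a b : BF m) (h : AN m s t l) (ha : Avail l a)
      (hb : Avail l b) : AN m (s + 1) t ((fun x => a x || b x) :: l)

/-- one circuit with at most `s` AND and OR gates and at most `t` NOT gates computes all the
functions `g 0, …, g (M - 1)` -/
def NotC (m s t M : ℕ) (g : ℕ → BF m) : Prop :=
  ∃ l s' t', AN m s' t' l ∧ s' ≤ s ∧ t' ≤ t ∧ ∀ j, j < M → Avail l (g j)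

/-- There is a public-key encryption scheme such that for each public key, the ciphertext, as a
function of the message bit and of the coins of the encryption, is computed by a circuit of size
polynomial in `n` with at most `t` NOT gates. -/
def PkeNot (t : ℕ) : Prop :=
  ∃ (S : Scheme) (q : Polynomial ℕ), IsPke S ∧
    ∀ n, 1 ≤ n → ∀ s : List Bool, s.length = S.g.eval n →
      NotC (S.e.eval n + 1) (q.eval n) t (S.len.eval n)
        fun j z => (S.ct n s (z 0) (List.ofFn fun i => z i.succ)).getD j false

/-! ### auxiliary notions for the proofs -/

/-- half of the length of a block -/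
def hB (e n : ℕ) : ℕ := (e + 1) * n

/-- the first index `k < n` such that the pair number `i n + k` of `Z` (its bits number
`i n + k` and `h + i n + k`) has different components -/
def posB (n h : ℕ) (Z : List Bool) (i : ℕ) : Option ℕ :=
  (List.range n).find? fun k => xor (Z.getD (i * n + k) false) (Z.getD (h + (i * n + k)) false)

/-- the `e` coins extracted from the block `Z` -/
def coinB (e n : ℕ) (Z : List Bool) : Option (List Bool) :=
  if (List.range e).all fun i => (posB n (hB e n) Z i).isSome then
    some ((List.range e).map fun i =>
      Z.getD (i * n + (posB n (hB e n) Z i).getD 0) false)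
  else none

/-- the output of a block; `c` is the function to be evaluated at the coins -/
def blkB (e n L : ℕ) (Z : List Bool) (c : List Bool → List Bool) : List Bool :=
  if hB e n < Z.count true then List.replicate (L + 2) true
  else if Z.count true = hB e n then
    match coinB e n Z with
    | some r => true :: false :: c r
    | none => false :: true :: List.replicate L false
  else List.replicate (L + 2) false

/-- encryption brought to the right length -/
def En (S : Scheme) (n : ℕ) (pk : List Bool) (b : Bool) (r : List Bool) : List Bool :=
  fit (S.len.eval n) (S.enc (c4 (ones n) pk [b] r))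

/-- the scheme with one block -/
noncomputable def Sb (S : Scheme) (encB : List Bool → List Bool) : Scheme where
  pk := S.pk
  sk := S.sk
  enc := encB
  dec := S.dec
  g := S.g
  e := 2 * ((S.e + 1) * Polynomial.X)
  len := S.len + 2

/-- what the encryption with one block computes -/
def SpB (S : Scheme) (encB : List Bool → List Bool) : Prop :=
  ∀ n pk b Z, encB (c4 (ones n) pk [b] Z) = blkB (S.e.eval n) n (S.len.eval n) Z (En S n pk b)

/-- `N`-fold repetition of a scheme -/
noncomputable def rep (S : Scheme) (N : Polynomial ℕ) (encN decN : List Bool → List Bool) :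
    Scheme where
  pk := S.pk
  sk := S.sk
  enc := encN
  dec := decN
  g := S.g
  e := N * S.e
  len := N * S.len

/-- the coins number `i` -/
def cn (S : Scheme) (n : ℕ) (R : List Bool) (i : ℕ) : List Bool :=
  (R.drop (i * S.e.eval n)).take (S.e.eval n)

/-- what the encryption of the repetition computes -/
def SpR (S : Scheme) (N : Polynomial ℕ) (encN : List Bool → List Bool) : Prop :=
  ∀ n pk b R, encN (c4 (ones n) pk [b] R) =
    (List.range (N.eval n)).flatMap fun i => En S n pk b (cn S n R i)

/-- the hybrid: ones are encrypted before the place `i`, the ciphertext `c` is at the place `i`,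
zeros are encrypted after it -/
def hyb (S : Scheme) (N : Polynomial ℕ) (n : ℕ) (pk c R : List Bool) (i : ℕ) : List Bool :=
  (List.range (N.eval n)).flatMap fun l =>
    if l < i then En S n pk true (cn S n R l) else if l = i then c
    else En S n pk false (cn S n R l)

/-- value of a binary number -/
def bval (l : List Bool) : ℕ := l.foldr (fun b v => 2 * v + b.toNat) 0

/-- what the adversary for the hybrid computes -/
def SpH (S : Scheme) (N : Polynomial ℕ) (A A' : List Bool → List Bool) (t : Polynomial ℕ) :
    Prop :=
  ∀ (n : ℕ) (pk c ι R w : List Bool), ι.length = N.eval n →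
    R.length = N.eval n * S.e.eval n → w.length = t.eval n →
    A' (c4 (ones n) pk c (ι ++ (R ++ w))) =
      if bval (ι.take (Nat.size (N.eval n))) < N.eval n then
        A (c4 (ones n) pk (hyb S N n pk c R (bval (ι.take (Nat.size (N.eval n))))) w)
      else []

/-- what the adversary for the block computes -/
def SpC (S : Scheme) (A A' : List Bool → List Bool) (t : Polynomial ℕ) : Prop :=
  ∀ (n : ℕ) (pk c Z w : List Bool), Z.length = 2 * hB (S.e.eval n) n → w.length = t.eval n →
    A' (c4 (ones n) pk c (Z ++ w)) =
      A (c4 (ones n) pk (blkB (S.e.eval n) n (S.len.eval n) Z fun _ => c) w)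

/-- the number of blocks -/
noncomputable def NB (S : Scheme) : Polynomial ℕ :=
  (2 * ((S.e + 1) * Polynomial.X) + 1) * Polynomial.X

/-- decryption: the first valid block -/
def decP (S : Scheme) (N n : ℕ) (sk u : List Bool) : List Bool :=
  match (List.range N).find? fun i => u.getD (i * (S.len.eval n + 2)) false &&
      !(u.getD (i * (S.len.eval n + 2) + 1) false) with
  | some i => S.dec (c3 (ones n) sk ((u.drop (i * (S.len.eval n + 2) + 2)).take (S.len.eval n)))
  | none => []

end Pool.Agent.H547U4
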