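import Pool.Agent.H547U4.Defs

/-!
# Statements of the tasks
-/

set_option autoImplicit false

namespace Pool.Agent.H547U4

open Pool.Agent.H547R6 Pool.Agent.H547R7 Pool.Agent.H547R8 Pool.Agent.NPC Pool.Agent.H547S1

/-- the hybrid adversary in polynomial time -/
def Y_H1 : Prop := ∀ (S : Scheme) (N : Polynomial ℕ) (A : List Bool → List Bool)
  (t : Polynomial ℕ), PolyTime S.enc → PolyTime A → ∃ A', PolyTime A' ∧ SpH S N A A' t

/-- the hybrid argument -/
def Y_H2 : Prop := ∀ (S : Scheme) (N : Polynomial ℕ) (encN decN A A' : List Bool → List Bool)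
  (t : Polynomial ℕ), SpR S N encN → SpH S N A A' t → ∀ n,
  (rep S N encN decN).acp A t n true - (rep S N encN decN).acp A t n false =
    2 ^ Nat.size (N.eval n) * (S.acp A' (N + (N * S.e + t)) n true -
      S.acp A' (N + (N * S.e + t)) n false)

/-- the encryption with one block in polynomial time -/
def Y_C1 : Prop := ∀ S : Scheme, PolyTime S.enc → ∃ encB, PolyTime encB ∧ SpB S encB

/-- the adversary for one block in polynomial time -/
def Y_C2 : Prop := ∀ (S : Scheme) (A : List Bool → List Bool) (t : Polynomial ℕ), PolyTime A →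
  ∃ A', PolyTime A' ∧ SpC S A A' t

/-- the coins of a block are uniform -/
def Y_C0 : Prop := ∀ (e n : ℕ), 1 ≤ n → ∀ φ : Bool → ℕ → (Fin e → Bool) → Bool,
  (∀ k r r', φ false k r = φ false k r') →
  (pr fun Z : Fin (2 * hB e n) → Bool => φ (coinB e n (List.ofFn Z)).isSome
    ((List.ofFn Z).count true) (vec e ((coinB e n (List.ofFn Z)).getD []))) =
  pr fun w : (Fin (2 * hB e n) → Bool) × (Fin e → Bool) =>
    φ (coinB e n (List.ofFn w.1)).isSome ((List.ofFn w.1).count true) w.2

/-- the probabilities for one block -/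
def Y_C3 : Prop := ∀ (S : Scheme) (encB A A' : List Bool → List Bool) (t : Polynomial ℕ),
  SpB S encB → SpC S A A' t → ∀ n b, 1 ≤ n →
  (Sb S encB).acp A t n b = S.acp A' (2 * ((S.e + 1) * Polynomial.X) + t) n b

/-- repetition and decryption in polynomial time -/
def Y_D : Prop :=
  (∀ (S : Scheme) (N : Polynomial ℕ), PolyTime S.enc → ∃ encN, PolyTime encN ∧ SpR S N encN) ∧
  ∀ (S : Scheme) (N : Polynomial ℕ), PolyTime S.dec → ∃ decN : List Bool → List Bool,
    PolyTime decN ∧ ∀ n sk u, decN (c3 (ones n) sk u) = decP S (N.eval n) n sk u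

/-- probabilities for one block -/
def Y_E1 : Prop := ∀ (e n : ℕ), 1 ≤ n →
  (1 / (2 * (hB e n : ℝ) + 1) ≤ pr fun Z : Fin (2 * hB e n) → Bool =>
    decide ((List.ofFn Z).count true = hB e n)) ∧
  (pr fun Z : Fin (2 * hB e n) → Bool => (coinB e n (List.ofFn Z)).isNone) ≤
    (e : ℝ) * (1 / 2) ^ n

/-- correctness: the first valid block -/
def Y_E3 : Prop := ∀ (S : Scheme) (encB encN decN : List Bool → List Bool) (N : Polynomial ℕ),
  SpB S encB → SpR (Sb S encB) N encN →
  (∀ n sk u, decN (c3 (ones n) sk u) = decP S (N.eval n) n sk u) → ∀ n b, 1 ≤ n →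
  (rep (Sb S encB) N encN decN).err n b ≤
    (1 - pr fun Z : Fin (2 * hB (S.e.eval n) n) → Bool =>
      decide ((List.ofFn Z).count true = hB (S.e.eval n) n) &&
        (coinB (S.e.eval n) n (List.ofFn Z)).isSome) ^ N.eval n + S.err n b

/-- monotone circuits for the bits of the ciphertext, for each message -/
def Y_F1 : Prop := ∀ (S : Scheme) (encB encN decN : List Bool → List Bool) (N : Polynomial ℕ),
  PolyTime S.pk → PolyTime S.enc → PolyTime encB → SpB S encB → SpR (Sb S encB) N encN →
  ∃ q : Polynomial ℕ, ∀ n, 1 ≤ n → ∀ s : List Bool, s.length = S.g.eval n → ∀ (b : Bool) (j : ℕ),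
    j < (rep (Sb S encB) N encN decN).len.eval n →
    MC ((rep (Sb S encB) N encN decN).e.eval n + 1) (q.eval n) fun z =>
      ((rep (Sb S encB) N encN decN).ct n s b (List.ofFn fun i => z i.succ)).getD j false

/-- combination of monotone circuits with one NOT gate -/
def Y_F2 : Prop := ∀ (m s M : ℕ) (g₀ g₁ : ℕ → BF (m + 1)),
  (∀ j, j < M → MC (m + 1) s (g₀ j) ∧ MC (m + 1) s (g₁ j)) →
  NotC (m + 1) (M * (2 * s + 3) + 2) 1 M fun j z => bif z 0 then g₁ j z else g₀ j z

/-- circuits without NOT gates are monotone circuits -/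
def Y_G : Prop := ∀ (m s M : ℕ) (g : ℕ → BF m), NotC m s 0 M g → ∀ j, j < M →
  Computes MB m s (g j)

end Pool.Agent.H547U4
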