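import Pool.Agent.H547U4.Stm

/-!
# Task C0: the coins of a block are uniform
-/

set_option autoImplicit false

namespace Pool.Agent.H547U4

open Pool.Agent.H547R6 Pool.Agent.H547R7 Pool.Agent.H547R8 Pool.Agent.NPC Pool.Agent.H547S1

/-- bit number `q` -/
def C0_g {m : ℕ} (Z : Fin m → Bool) (q : ℕ) : Bool := (List.ofFn Z).getD q false

theorem C0_g_lt {m : ℕ} (Z : Fin m → Bool) (q : ℕ) (hq : q < m) : C0_g Z q = Z ⟨q, hq⟩ := by
  unfold C0_g
  rw [List.getD_eq_getElem _ _ (by simpa using hq)]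
  simp

/-- position -/
def C0_P (e n : ℕ) (Z : Fin (2 * hB e n) → Bool) (i : ℕ) : Option ℕ :=
  posB n (hB e n) (List.ofFn Z) i

/-- extension of `r` by `false` -/
def C0_R {e : ℕ} (r : Fin e → Bool) (i : ℕ) : Bool := if hi : i < e then r ⟨i, hi⟩ else false

/-- the bits of the changed block -/
def C0_U (e n : ℕ) (Z : Fin (2 * hB e n) → Bool) (r : Fin e → Bool) (q : ℕ) : Bool :=
  if (q % hB e n) / n < e ∧ C0_P e n Z ((q % hB e n) / n) = some ((q % hB e n) % n) then
    (if q < hB e n then C0_R r ((q % hB e n) / n) else !(C0_R r ((q % hB e n) / n)))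
  else C0_g Z q

/-- the changed block -/
def C0_upd (e n : ℕ) (Z : Fin (2 * hB e n) → Bool) (r : Fin e → Bool) :
    Fin (2 * hB e n) → Bool := fun q => C0_U e n Z r q.1

/-- the coins of `Z`, where they exist -/
def C0_cc (e n : ℕ) (Z : Fin (2 * hB e n) → Bool) (r : Fin e → Bool) : Fin e → Bool :=
  fun i => match C0_P e n Z i with
    | some k => C0_g Z (i * n + k)
    | none => r i

theorem C0_find_congr {α : Type} (l : List α) (p q : α → Bool) (h : ∀ a ∈ l, p a = q a) :
    l.find? p = l.find? q := by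
  induction l with
  | nil => rfl
  | cons a t ih =>
    rw [List.find?_cons, List.find?_cons, h a (by simp), ih fun b hb => h b (by simp [hb])]

theorem C0_P_some {e n : ℕ} {Z : Fin (2 * hB e n) → Bool} {i k : ℕ} (h : C0_P e n Z i = some k) :
    k < n ∧ xor (C0_g Z (i * n + k)) (C0_g Z (hB e n + (i * n + k))) = true := by
  unfold C0_P posB at h
  refine ⟨List.mem_range.1 (List.mem_of_find?_eq_some h), ?_⟩
  have h2 := List.find?_some h
  exact h2

theorem C0_lt {e n i k : ℕ} (hi : i < e) (hk : k < n) : i * n + k < hB e n := by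
  unfold hB
  have h1 : (i + 1) * n ≤ e * n := Nat.mul_le_mul_right _ hi
  rw [Nat.add_mul, Nat.one_mul] at h1
  rw [Nat.add_mul, Nat.one_mul]
  omega

theorem C0_g_upd {e n : ℕ} (Z : Fin (2 * hB e n) → Bool) (r : Fin e → Bool) (q : ℕ)
    (hq : q < 2 * hB e n) : C0_g (C0_upd e n Z r) q = C0_U e n Z r q := by
  rw [C0_g_lt _ _ hq]; rfl

theorem C0_lo {e n : ℕ} (Z : Fin (2 * hB e n) → Bool) (r : Fin e → Bool) {i k : ℕ} (hi : i < e)
    (hk : k < n) : C0_g (C0_upd e n Z r) (i * n + k) =
      if C0_P e n Z i = some k then C0_R r i else C0_g Z (i * n + k) := by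
  have h1 := C0_lt hi hk
  rw [C0_g_upd _ _ _ (by omega)]
  have h2 : (i * n + k) % hB e n = i * n + k := Nat.mod_eq_of_lt h1
  have h3 : (i * n + k) / n = i := by
    rw [Nat.mul_comm, Nat.mul_add_div (by omega), Nat.div_eq_of_lt hk, Nat.add_zero]
  have h4 : (i * n + k) % n = k := by
    rw [Nat.mul_comm, Nat.mul_add_mod, Nat.mod_eq_of_lt hk]
  unfold C0_U
  rw [h2, h3, h4, if_pos h1]
  by_cases h : C0_P e n Z i = some k
  · rw [if_pos ⟨hi, h⟩, if_pos h]
  · rw [if_neg (fun h' => h h'.2), if_neg h]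

theorem C0_hi {e n : ℕ} (Z : Fin (2 * hB e n) → Bool) (r : Fin e → Bool) {i k : ℕ} (hi : i < e)
    (hk : k < n) : C0_g (C0_upd e n Z r) (hB e n + (i * n + k)) =
      if C0_P e n Z i = some k then !(C0_R r i) else C0_g Z (hB e n + (i * n + k)) := by
  have h1 := C0_lt hi hk
  rw [C0_g_upd _ _ _ (by omega)]
  have h2 : (hB e n + (i * n + k)) % hB e n = i * n + k := by
    rw [Nat.add_mod_left, Nat.mod_eq_of_lt h1]
  have h3 : (i * n + k) / n = i := by
    rw [Nat.mul_comm, Nat.mul_add_div (by omega), Nat.div_eq_of_lt hk, Nat.add_zero]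
  have h4 : (i * n + k) % n = k := by
    rw [Nat.mul_comm, Nat.mul_add_mod, Nat.mod_eq_of_lt hk]
  unfold C0_U
  rw [h2, h3, h4, if_neg (by omega : ¬ hB e n + (i * n + k) < hB e n)]
  by_cases h : C0_P e n Z i = some k
  · rw [if_pos ⟨hi, h⟩, if_pos h]
  · rw [if_neg (fun h' => h h'.2), if_neg h]

theorem C0_P_upd {e n : ℕ} (Z : Fin (2 * hB e n) → Bool) (r : Fin e → Bool) {i : ℕ} (hi : i < e) :
    C0_P e n (C0_upd e n Z r) i = C0_P e n Z i := by
  unfold C0_P posB
  apply C0_find_congr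
  intro k hk
  have hk' := List.mem_range.1 hk
  show xor (C0_g (C0_upd e n Z r) (i * n + k)) (C0_g (C0_upd e n Z r) (hB e n + (i * n + k))) =
    xor (C0_g Z (i * n + k)) (C0_g Z (hB e n + (i * n + k)))
  rw [C0_lo Z r hi hk', C0_hi Z r hi hk']
  by_cases h : C0_P e n Z i = some k
  · rw [if_pos h, if_pos h, (C0_P_some h).2]
    simp
  · rw [if_neg h, if_neg h]

/-- the number of ones as a sum -/
theorem C0_count {m : ℕ} (Z : Fin m → Bool) :
    (List.ofFn Z).count true = ∑ i : Fin m, (Z i).toNat := by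
  induction m with
  | zero => simp
  | succ m ih =>
    rw [List.ofFn_succ, List.count_cons, ih, Fin.sum_univ_succ]
    rcases Z 0 with _ | _ <;> simp [Nat.add_comm]

theorem C0_count_range {h : ℕ} (Z : Fin (2 * h) → Bool) :
    (List.ofFn Z).count true =
      ∑ q ∈ Finset.range h, ((C0_g Z q).toNat + (C0_g Z (h + q)).toNat) := by
  rw [C0_count]
  have h1 : ∑ i : Fin (2 * h), (Z i).toNat = ∑ i : Fin (2 * h), (C0_g Z i.1).toNat := by
    refine Finset.sum_congr rfl fun i _ => ?_
    rw [C0_g_lt Z i.1 i.2]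
  have key : ∀ f : ℕ → ℕ, ∑ q ∈ Finset.range (2 * h), f q =
      ∑ q ∈ Finset.range h, (f q + f (h + q)) := by
    intro f
    rw [two_mul, Finset.sum_range_add, Finset.sum_add_distrib]
  rw [h1, Fin.sum_univ_eq_sum_range (fun q => (C0_g Z q).toNat) (2 * h), key]

theorem C0_count_upd {e n : ℕ} (hn : 1 ≤ n) (Z : Fin (2 * hB e n) → Bool) (r : Fin e → Bool) :
    (List.ofFn (C0_upd e n Z r)).count true = (List.ofFn Z).count true := by
  rw [C0_count_range, C0_count_range]
  refine Finset.sum_congr rfl fun q hq => ?_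
  have hq' := Finset.mem_range.1 hq
  by_cases h : q / n < e ∧ C0_P e n Z (q / n) = some (q % n)
  · have h0 : q / n * n + q % n = q := Nat.div_add_mod' q n
    have hk : q % n < n := Nat.mod_lt _ (by omega)
    have e1 := C0_lo Z r h.1 hk
    have e2 := C0_hi Z r h.1 hk
    rw [if_pos h.2, h0] at e1 e2
    have e3 := (C0_P_some h.2).2
    rw [h0] at e3
    rw [e1, e2]
    revert e3
    rcases C0_g Z q <;> rcases C0_g Z (hB e n + q) <;> rcases C0_R r (q / n) <;> simp
  · have e1 : C0_g (C0_upd e n Z r) q = C0_g Z q := by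
      rw [C0_g_upd _ _ _ (by omega)]
      unfold C0_U
      rw [Nat.mod_eq_of_lt hq', if_neg h]
    have e2 : C0_g (C0_upd e n Z r) (hB e n + q) = C0_g Z (hB e n + q) := by
      rw [C0_g_upd _ _ _ (by omega)]
      unfold C0_U
      rw [Nat.add_mod_left, Nat.mod_eq_of_lt hq', if_neg h]
    rw [e1, e2]

theorem C0_invol {e n : ℕ} (_hn : 1 ≤ n) : Function.Involutive
    (fun p : (Fin (2 * hB e n) → Bool) × (Fin e → Bool) =>
      (C0_upd e n p.1 p.2, C0_cc e n p.1 p.2)) := by
  rintro ⟨Z, r⟩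
  have hR : ∀ i : Fin e, C0_R r i = r i := fun i => by unfold C0_R; rw [dif_pos i.2]
  have key : C0_cc e n (C0_upd e n Z r) (C0_cc e n Z r) = r := by
    funext i
    unfold C0_cc
    rw [C0_P_upd Z r i.2]
    rcases h : C0_P e n Z i with _ | k
    · simp only [h]
    · simp only [h]
      rw [C0_lo Z r i.2 (C0_P_some h).1, if_pos h, hR]
  have key2 : C0_upd e n (C0_upd e n Z r) (C0_cc e n Z r) = Z := by
    funext q
    obtain ⟨q, hq⟩ := q
    show C0_U e n (C0_upd e n Z r) (C0_cc e n Z r) q = Z ⟨q, hq⟩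
    unfold C0_U
    have hpos : 0 < hB e n := by omega
    have hm : q % hB e n < hB e n := Nat.mod_lt _ hpos
    obtain ⟨i, hi⟩ : ∃ i, i = (q % hB e n) / n := ⟨_, rfl⟩
    obtain ⟨k, hk⟩ : ∃ k, k = (q % hB e n) % n := ⟨_, rfl⟩
    have h0 : i * n + k = q % hB e n := by rw [hi, hk]; exact Nat.div_add_mod' _ n
    rw [← hi, ← hk]
    by_cases h : i < e ∧ C0_P e n Z i = some k
    · have h' : i < e ∧ C0_P e n (C0_upd e n Z r) i = some k := by
        rw [C0_P_upd Z r h.1]; exact h
      rw [if_pos h']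
      have e3 := (C0_P_some h.2).2
      have e4 : C0_R (C0_cc e n Z r) i = C0_g Z (i * n + k) := by
        unfold C0_R C0_cc
        rw [dif_pos h.1]
        simp only [h.2]
      rw [e4, ← C0_g_lt Z q hq]
      by_cases hlt : q < hB e n
      · rw [if_pos hlt, h0, Nat.mod_eq_of_lt hlt]
      · rw [if_neg hlt]
        have h5 : hB e n + (i * n + k) = q := by
          rw [h0]
          have h6 : q % hB e n = q - hB e n := by
            rw [Nat.mod_eq_sub_mod (by omega), Nat.mod_eq_of_lt (by omega)]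
          omega
        rw [h5] at e3
        revert e3
        rcases C0_g Z (i * n + k) <;> rcases C0_g Z q <;> simp
    · have h' : ¬ (i < e ∧ C0_P e n (C0_upd e n Z r) i = some k) := by
        rintro ⟨h1, h2⟩
        rw [C0_P_upd Z r h1] at h2
        exact h ⟨h1, h2⟩
      rw [if_neg h', C0_g_upd _ _ _ hq]
      unfold C0_U
      rw [← hi, ← hk, if_neg h, C0_g_lt Z q hq]
  exact Prod.ext key2 key

theorem C0_isSome (e n : ℕ) (Z : List Bool) : (coinB e n Z).isSome =
    (List.range e).all fun i => (posB n (hB e n) Z i).isSome := by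
  unfold coinB
  split_ifs with h
  · rw [h]; rfl
  · rw [Bool.not_eq_true] at h
    rw [h]; rfl

theorem C0_all {e : ℕ} (p q : ℕ → Bool) (h : ∀ i < e, p i = q i) :
    (List.range e).all p = (List.range e).all q := by
  rw [Bool.eq_iff_iff, List.all_eq_true, List.all_eq_true]
  constructor
  · intro h1 i hi
    rw [← h i (List.mem_range.1 hi)]; exact h1 i hi
  · intro h1 i hi
    rw [h i (List.mem_range.1 hi)]; exact h1 i hi

theorem C0_isSome_upd {e n : ℕ} (Z : Fin (2 * hB e n) → Bool) (r : Fin e → Bool) :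
    (coinB e n (List.ofFn (C0_upd e n Z r))).isSome = (coinB e n (List.ofFn Z)).isSome := by
  rw [C0_isSome, C0_isSome]
  apply C0_all
  intro i hi
  have h := C0_P_upd Z r hi
  unfold C0_P at h
  rw [h]

theorem C0_coins {e n : ℕ} (Z : Fin (2 * hB e n) → Bool) (r : Fin e → Bool)
    (h : (coinB e n (List.ofFn Z)).isSome = true) :
    vec e ((coinB e n (List.ofFn Z)).getD []) = C0_cc e n Z r := by
  have h1 := h
  rw [C0_isSome] at h1
  have h2 : coinB e n (List.ofFn Z) = some ((List.range e).map fun i =>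
      (List.ofFn Z).getD (i * n + (posB n (hB e n) (List.ofFn Z) i).getD 0) false) := by
    unfold coinB
    rw [if_pos h1]
  rw [h2]
  funext i
  have h3 := List.all_eq_true.1 h1 i (List.mem_range.2 i.2)
  obtain ⟨k, hk⟩ := Option.isSome_iff_exists.1 h3
  unfold vec C0_cc
  have hk' : C0_P e n Z i = some k := hk
  simp only [hk', Option.getD_some]
  rw [List.getD_eq_getElem _ _ (by simp)]
  simp only [List.getElem_map, List.getElem_range, hk, Option.getD_some]
  rfl

theorem y_C0 : Y_C0 := by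
  intro e n hn φ hφ
  obtain ⟨F, hF⟩ : ∃ F : (Fin (2 * hB e n) → Bool) × (Fin e → Bool) → Bool, F = fun p =>
    φ (coinB e n (List.ofFn p.1)).isSome ((List.ofFn p.1).count true) p.2 := ⟨_, rfl⟩
  have hT : ∀ p : (Fin (2 * hB e n) → Bool) × (Fin e → Bool),
      F (C0_upd e n p.1 p.2, C0_cc e n p.1 p.2) =
        φ (coinB e n (List.ofFn p.1)).isSome ((List.ofFn p.1).count true)
          (vec e ((coinB e n (List.ofFn p.1)).getD [])) := by
    rintro ⟨Z, r⟩
    rw [hF]
    show φ (coinB e n (List.ofFn (C0_upd e n Z r))).isSome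
      ((List.ofFn (C0_upd e n Z r)).count true) (C0_cc e n Z r) = _
    rw [C0_isSome_upd, C0_count_upd hn]
    rcases h : (coinB e n (List.ofFn Z)).isSome with _ | _
    · exact hφ _ _ _
    · rw [C0_coins Z r h]
  obtain ⟨G, hG⟩ : ∃ G : (Fin (2 * hB e n) → Bool) → ℝ, G = fun Z =>
    if φ (coinB e n (List.ofFn Z)).isSome ((List.ofFn Z).count true)
          (vec e ((coinB e n (List.ofFn Z)).getD [])) = true then (1 : ℝ) else 0 := ⟨_, rfl⟩
  have hsum : ∑ p : (Fin (2 * hB e n) → Bool) × (Fin e → Bool), (if F p = true then (1 : ℝ) else 0) =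
      ∑ p : (Fin (2 * hB e n) → Bool) × (Fin e → Bool), G p.1 := by
    rw [← Equiv.sum_comp (Function.Involutive.toPerm _ (C0_invol (e := e) hn))
      (fun p => if F p = true then (1 : ℝ) else 0)]
    refine Finset.sum_congr rfl fun p _ => ?_
    have h1 : (Function.Involutive.toPerm _ (C0_invol (e := e) hn)) p =
      (C0_upd e n p.1 p.2, C0_cc e n p.1 p.2) := rfl
    rw [h1, hT p, hG]
  rw [Fintype.sum_prod_type (f := fun p : (Fin (2 * hB e n) → Bool) × (Fin e → Bool) => G p.1)]
    at hsum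
  simp only [Finset.sum_const, Finset.card_univ, nsmul_eq_mul] at hsum
  rw [← Finset.mul_sum] at hsum
  have hl : (pr fun Z : Fin (2 * hB e n) → Bool => φ (coinB e n (List.ofFn Z)).isSome
      ((List.ofFn Z).count true) (vec e ((coinB e n (List.ofFn Z)).getD []))) =
      (∑ Z, G Z) / Fintype.card (Fin (2 * hB e n) → Bool) := by
    unfold pr
    rw [← Finset.sum_boole, hG]
  have hr : (pr fun w : (Fin (2 * hB e n) → Bool) × (Fin e → Bool) =>
      φ (coinB e n (List.ofFn w.1)).isSome ((List.ofFn w.1).count true) w.2) =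
      (∑ p, (if F p = true then (1 : ℝ) else 0)) /
        Fintype.card ((Fin (2 * hB e n) → Bool) × (Fin e → Bool)) := by
    unfold pr
    rw [← Finset.sum_boole, hF]
  rw [hl, hr, hsum, Fintype.card_prod]
  have hc1 : (Fintype.card (Fin (2 * hB e n) → Bool) : ℝ) ≠ 0 := by
    exact_mod_cast Fintype.card_ne_zero
  have hc2 : (Fintype.card (Fin e → Bool) : ℝ) ≠ 0 := by
    exact_mod_cast Fintype.card_ne_zero
  rw [Nat.cast_mul, div_eq_div_iff hc1 (mul_ne_zero hc1 hc2)]
  ring

end Pool.Agent.H547U4
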