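import Pool.Agent.H547U4.Stm
import Pool.Agent.H547S1.T_OBT
import Pool.Agent.H547S1.T_PBT

/-!
# Task C1: the encryption with one block in polynomial time
-/

set_option autoImplicit false

namespace Pool.Agent.H547U4

open Pool.Agent.H547R6 Pool.Agent.H547R7 Pool.Agent.H547R8 Pool.Agent.NPC Pool.Agent.H547S1
open Pool.Agent.H583R2 Pool.Agent.H545R2.KS

section

variable {α : Type} [H583R2.TEnc α]

theorem C1_xor {b c : α → Bool} (hb : PF b) (hc : PF c) : PF (fun a => xor (b a) (c a)) :=
  (PF.not (PF.beqBool hb hc)).congr fun a => by cases b a <;> cases c a <;> rfl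

theorem C1_hB {e n : α → ℕ} (he : PF e) (hn : PF n) : PF (fun a => hB (e a) (n a)) := by
  unfold hB
  exact PF.mul (PF.add he (PF.const 1)) hn

theorem C1_posB {n h i : α → ℕ} {Z : α → List Bool} (hn : PF n) (hh : PF h) (hi : PF i)
    (hZ : PF Z) : PF (fun a => posB (n a) (h a) (Z a) (i a)) := by
  unfold posB
  have hk : PF (fun p : α × ℕ => i p.1 * n p.1 + p.2) :=
    PF.add (PF.mul (hi.comp PF.fst) (hn.comp PF.fst)) PF.snd
  exact PF.find (l := fun a => List.range (n a))
    (f := fun a k => xor ((Z a).getD (i a * n a + k) false)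
      ((Z a).getD (h a + (i a * n a + k)) false)) (PF.range hn)
    (C1_xor (PF.listGetD hk (hZ.comp PF.fst) (PF.const false))
      (PF.listGetD (PF.add (hh.comp PF.fst) hk) (hZ.comp PF.fst) (PF.const false)))

theorem C1_all {e n : α → ℕ} {Z : α → List Bool} (he : PF e) (hn : PF n) (hZ : PF Z) :
    PF (fun a => (List.range (e a)).all
      fun i => (posB (n a) (hB (e a) (n a)) (Z a) i).isSome) :=
  PF.all (l := fun a => List.range (e a))
    (f := fun a i => (posB (n a) (hB (e a) (n a)) (Z a) i).isSome) (PF.range he)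
    (PF.isSome (C1_posB (hn.comp PF.fst) ((C1_hB he hn).comp PF.fst) PF.snd (hZ.comp PF.fst)))

theorem C1_coins {e n : α → ℕ} {Z : α → List Bool} (he : PF e) (hn : PF n) (hZ : PF Z) :
    PF (fun a => (List.range (e a)).map fun i =>
      (Z a).getD (i * n a + (posB (n a) (hB (e a) (n a)) (Z a) i).getD 0) false) :=
  PF.map (l := fun a => List.range (e a))
    (f := fun a i => (Z a).getD
      (i * n a + (posB (n a) (hB (e a) (n a)) (Z a) i).getD 0) false) (PF.range he)
    (PF.listGetD (PF.add (PF.mul PF.snd (hn.comp PF.fst))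
      (PF.getD (C1_posB (hn.comp PF.fst) ((C1_hB he hn).comp PF.fst) PF.snd
        (hZ.comp PF.fst)) (PF.const 0))) (hZ.comp PF.fst) (PF.const false))

theorem C1_blk {e n L : α → ℕ} {Z : α → List Bool} {c : α → List Bool → List Bool} (he : PF e)
    (hn : PF n) (hL : PF L) (hZ : PF Z) (hc : PF (fun p : α × List Bool => c p.1 p.2)) :
    PF (fun a => blkB (e a) (n a) (L a) (Z a) (c a)) := by
  have hcoin : PF (fun a => c a ((List.range (e a)).map fun i =>
      (Z a).getD (i * n a + (posB (n a) (hB (e a) (n a)) (Z a) i).getD 0) false)) :=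
    hc.comp (PF.pair PF.id (C1_coins he hn hZ))
  have hL2 : PF (fun a => L a + 2) := PF.add hL (PF.const 2)
  refine (PF.ite (PF.lt (C1_hB he hn) (OBT_count hZ)) (PF.replicate hL2 (PF.const true))
    (PF.ite (PF.natEq (OBT_count hZ) (C1_hB he hn))
      (PF.ite (C1_all he hn hZ) (PF.cons (PF.const true) (PF.cons (PF.const false) hcoin))
        (PF.cons (PF.const false) (PF.cons (PF.const true) (PF.replicate hL (PF.const false)))))
      (PF.replicate hL2 (PF.const false)))).congr fun a => ?_
  unfold blkB coinB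
  simp only [decide_eq_true_eq]
  split_ifs <;> rfl

theorem C1_En {S : Scheme} (hS : PolyTime S.enc) {n : α → ℕ} {pk R : α → List Bool}
    {b : α → Bool} (hn : PF n) (hpk : PF pk) (hb : PF b) (hR : PF R) :
    PF (fun a => En S (n a) (pk a) (b a) (R a)) :=
  PBT_fit (pf_eval hn S.len) ((pf_of_polyTime hS).comp (PBT_c4 (PBT_ones hn) hpk
    (PF.cons hb (PF.const [])) hR))

end

theorem y_C1 : Y_C1 := by
  intro S hE
  refine ⟨fun z => blkB (S.e.eval (spl z).1.length) (spl z).1.length
      (S.len.eval (spl z).1.length) (spl (spl (spl z).2).2).2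
      (En S (spl z).1.length (spl (spl z).2).1 ((spl (spl (spl z).2).2).1.headD false)),
    ?_, ?_⟩
  · apply polyTime_of_pf
    have hn := PF.length PBT_p1
    have hb := PF.headD PBT_p3 (PF.const false)
    exact C1_blk (pf_eval hn S.e) hn (pf_eval hn S.len) PBT_q3
      (C1_En hE (hn.comp PF.fst) (PBT_p2.comp PF.fst) (hb.comp PF.fst) PF.snd)
  · intro n pk b Z
    simp only [c4, spl_pairBits, PBT_length_ones, List.headD_cons]

end Pool.Agent.H547U4
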