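import Pool.Agent.H547U4.Stm

/-!
# C2: the adversary for one block in polynomial time
-/

set_option autoImplicit false

namespace Pool.Agent.H547U4

open Pool.Agent.H547R6 Pool.Agent.H547R7 Pool.Agent.H547R8 Pool.Agent.NPC
open Pool.Agent.H583R2 Pool.Agent.H545R2.KS Pool.Agent.H547S1

section

variable {α : Type} [H583R2.TEnc α]

theorem C2_count {u : α → List Bool} (hu : PF u) : PF (fun a => (u a).count true) := by
  refine (PF.length (PF.filter (f := fun _ b => b) hu PF.snd)).congr fun a => ?_
  rw [List.count_eq_length_filter]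
  congr 1
  apply List.filter_congr
  intro b _
  cases b <;> rfl

theorem C2_xor {a b : α → Bool} (ha : PF a) (hb : PF b) : PF (fun x => xor (a x) (b x)) :=
  (PF.not (PF.beqBool ha hb)).congr fun x => by cases a x <;> cases b x <;> rfl

theorem C2_hB {e n : α → ℕ} (he : PF e) (hn : PF n) : PF (fun a => hB (e a) (n a)) := by
  unfold hB
  exact PF.mul (PF.add he (PF.const 1)) hn

theorem C2_posB {n h i : α → ℕ} {Z : α → List Bool} (hn : PF n) (hh : PF h) (hi : PF i)
    (hZ : PF Z) : PF (fun a => posB (n a) (h a) (Z a) (i a)) := by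
  unfold posB
  have h1 : PF (fun p : α × ℕ => i p.1 * n p.1 + p.2) :=
    PF.add (PF.mul (hi.comp PF.fst) (hn.comp PF.fst)) PF.snd
  exact PF.find (l := fun a => List.range (n a))
    (f := fun a k => xor ((Z a).getD (i a * n a + k) false)
      ((Z a).getD (h a + (i a * n a + k)) false)) (PF.range hn)
    (C2_xor (PF.listGetD h1 (hZ.comp PF.fst) (PF.const false))
      (PF.listGetD (PF.add (hh.comp PF.fst) h1) (hZ.comp PF.fst) (PF.const false)))

theorem C2_good {e n : α → ℕ} {Z : α → List Bool} (he : PF e) (hn : PF n) (hZ : PF Z) :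
    PF (fun a => (List.range (e a)).all fun i => (posB (n a) (hB (e a) (n a)) (Z a) i).isSome) :=
  PF.all (l := fun a => List.range (e a))
    (f := fun a i => (posB (n a) (hB (e a) (n a)) (Z a) i).isSome) (PF.range he)
    (PF.isSome (C2_posB (hn.comp PF.fst) ((C2_hB he hn).comp PF.fst) PF.snd (hZ.comp PF.fst)))

theorem C2_blk {e n L : α → ℕ} {Z c : α → List Bool} (he : PF e) (hn : PF n) (hL : PF L)
    (hZ : PF Z) (hc : PF c) :
    PF (fun a => blkB (e a) (n a) (L a) (Z a) (fun _ => c a)) := by
  have hL2 : PF (fun a => L a + 2) := PF.add hL (PF.const 2)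
  have hh := C2_hB he hn
  refine (PF.ite (PF.lt hh (C2_count hZ)) (PF.replicate hL2 (PF.const true))
    (PF.ite (PF.natEq (C2_count hZ) hh)
      (PF.ite (C2_good he hn hZ) (PF.cons (PF.const true) (PF.cons (PF.const false) hc))
        (PF.cons (PF.const false) (PF.cons (PF.const true) (PF.replicate hL (PF.const false)))))
      (PF.replicate hL2 (PF.const false)))).congr fun a => ?_
  unfold blkB coinB
  simp only [decide_eq_true_eq]
  by_cases h1 : hB (e a) (n a) < (Z a).count true
  · rw [if_pos h1, if_pos h1]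
  · rw [if_neg h1, if_neg h1]
    by_cases h2 : (Z a).count true = hB (e a) (n a)
    · rw [if_pos h2, if_pos h2]
      by_cases h3 : ((List.range (e a)).all fun i =>
          (posB (n a) (hB (e a) (n a)) (Z a) i).isSome) = true
      · rw [if_pos h3, if_pos h3]
      · rw [if_neg h3, if_neg h3]
    · rw [if_neg h2, if_neg h2]

theorem C2_ones {n : α → ℕ} (hn : PF n) : PF (fun a => ones (n a)) :=
  PF.replicate hn (PF.const true)

theorem C2_c4 {a b c d : α → List Bool} (ha : PF a) (hb : PF b) (hc : PF c) (hd : PF d) :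
    PF (fun x => c4 (a x) (b x) (c x) (d x)) :=
  pf_pairBits ha (pf_pairBits hb (pf_pairBits hc hd))

end

theorem C2_length_ones (n : ℕ) : (ones n).length = n := List.length_replicate

theorem C2_p1 : PF (fun z : List Bool => (spl z).1) := PF.fst' (PF.spl PF.id)

theorem C2_q1 : PF (fun z : List Bool => (spl z).2) := PF.snd' (PF.spl PF.id)

theorem C2_p2 : PF (fun z : List Bool => (spl (spl z).2).1) := PF.fst' (PF.spl C2_q1)

theorem C2_q2 : PF (fun z : List Bool => (spl (spl z).2).2) := PF.snd' (PF.spl C2_q1)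

theorem C2_p3 : PF (fun z : List Bool => (spl (spl (spl z).2).2).1) := PF.fst' (PF.spl C2_q2)

theorem C2_q3 : PF (fun z : List Bool => (spl (spl (spl z).2).2).2) := PF.snd' (PF.spl C2_q2)

theorem y_C2 : Y_C2 := by
  intro S A t hA
  refine ⟨fun z => A (c4 (ones (spl z).1.length) (spl (spl z).2).1
    (blkB (S.e.eval (spl z).1.length) (spl z).1.length (S.len.eval (spl z).1.length)
      ((spl (spl (spl z).2).2).2.take (2 * hB (S.e.eval (spl z).1.length) (spl z).1.length))
      (fun _ => (spl (spl (spl z).2).2).1))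
    ((spl (spl (spl z).2).2).2.drop (2 * hB (S.e.eval (spl z).1.length) (spl z).1.length))),
    ?_, ?_⟩
  · apply polyTime_of_pf
    have hn := PF.length C2_p1
    have he := pf_eval hn S.e
    have hh := PF.mul (PF.const 2) (C2_hB he hn)
    exact (pf_of_polyTime hA).comp (C2_c4 (C2_ones hn) C2_p2
      (C2_blk he hn (pf_eval hn S.len) (PF.take hh C2_q3) C2_p3) (PF.drop hh C2_q3))
  · intro n pk c Z w hZ hw
    simp only [c4, spl_pairBits, C2_length_ones]
    rw [List.take_left' hZ, List.drop_left' hZ]

end Pool.Agent.H547U4
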