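import Pool.Agent.H547U4.Stm

set_option autoImplicit false

/-!
# C3: probabilities for one block
-/

namespace Pool.Agent.H547U4

open Pool.Agent.H547R6 Pool.Agent.H547R7 Pool.Agent.H547R8 Pool.Agent.NPC Pool.Agent.H547S1

theorem C3_equiv {Ω Ω' : Type} [Fintype Ω] [Fintype Ω'] (e : Ω ≃ Ω') (p : Ω → Bool)
    (q : Ω' → Bool) (h : ∀ x, p x = q (e x)) : pr p = pr q := by
  classical
  unfold pr
  rw [Fintype.card_congr e]
  congr 2
  apply Finset.card_bij (fun x _ => e x)
  · intro x hx
    simp only [Finset.mem_filter, Finset.mem_univ, true_and] at hx ⊢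
    rw [← h, hx]
  · intro x _ y _ hxy
    exact e.injective hxy
  · intro y hy
    simp only [Finset.mem_filter, Finset.mem_univ, true_and] at hy
    refine ⟨e.symm y, ?_, by simp⟩
    simp only [Finset.mem_filter, Finset.mem_univ, true_and]
    rw [h, Equiv.apply_symm_apply, hy]

theorem C3_sum {Ω : Type} [Fintype Ω] (p : Ω → Bool) :
    pr p = (∑ x, if p x = true then (1 : ℝ) else 0) / Fintype.card Ω := by
  unfold pr
  rw [Finset.sum_boole]

theorem C3_prod {Ω Ω' : Type} [Fintype Ω] [Fintype Ω'] (p : Ω × Ω' → Bool) :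
    pr p = (∑ a, pr fun b => p (a, b)) / Fintype.card Ω := by
  rw [C3_sum, Fintype.sum_prod_type, Fintype.card_prod]
  have h : ∀ a : Ω, (pr fun b => p (a, b)) =
      (∑ x, if p (a, x) = true then (1 : ℝ) else 0) / Fintype.card Ω' := fun a => C3_sum _
  rw [Finset.sum_congr rfl fun a _ => h a, ← Finset.sum_div, div_div]
  congr 1
  push_cast
  ring

theorem C3_congr {Ω Ω₁ Ω₂ : Type} [Fintype Ω] [Fintype Ω₁] [Fintype Ω₂] (p : Ω × Ω₁ → Bool)
    (q : Ω × Ω₂ → Bool) (h : ∀ a, (pr fun b => p (a, b)) = pr fun b => q (a, b)) :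
    pr p = pr q := by
  rw [C3_prod p, C3_prod q, Finset.sum_congr rfl fun a _ => h a]

theorem C3_fit (m : ℕ) (l : List Bool) (h : l.length = m) : fit m l = l := by
  unfold fit
  rw [List.take_append_of_le_length h.ge, List.take_of_length_le h.le]

theorem C3_fitlen (m : ℕ) (l : List Bool) : (fit m l).length = m := by
  unfold fit
  rw [List.length_take, List.length_append, List.length_replicate]
  omega

/-- the output of a block, as a function of the relevant data -/
def C3_G (h L : ℕ) (o : Bool) (k : ℕ) (c : List Bool) : List Bool :=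
  if h < k then List.replicate (L + 2) true
  else if k = h then (if o = true then true :: false :: c else false :: true :: List.replicate L false)
  else List.replicate (L + 2) false

theorem C3_G_false (h L : ℕ) (k : ℕ) (c c' : List Bool) :
    C3_G h L false k c = C3_G h L false k c' := by
  unfold C3_G
  simp

theorem C3_blk (e n L : ℕ) (Z : List Bool) (c : List Bool → List Bool) :
    blkB e n L Z c =
      C3_G (hB e n) L (coinB e n Z).isSome (Z.count true) (c ((coinB e n Z).getD [])) := by
  unfold blkB C3_G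
  cases coinB e n Z <;> simp

theorem C3_len (e n : ℕ) (Z r : List Bool) (h : coinB e n Z = some r) : r.length = e := by
  unfold coinB at h
  split_ifs at h with h1
  · rw [← Option.some.inj h]
    simp

theorem C3_vec (e : ℕ) (r : List Bool) (h : r.length = e) : List.ofFn (vec e r) = r := by
  apply List.ext_getElem
  · rw [List.length_ofFn, h]
  · intro i h1 h2
    rw [List.getElem_ofFn]
    show r.getD i false = r[i]
    rw [List.getD_eq_getElem _ _ h2]

theorem C3_blk2 (e n L : ℕ) (Z : List Bool) (c : List Bool → List Bool) :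
    blkB e n L Z c = C3_G (hB e n) L (coinB e n Z).isSome (Z.count true)
      (c (List.ofFn (vec e ((coinB e n Z).getD [])))) := by
  rw [C3_blk]
  cases hc : coinB e n Z with
  | none => exact C3_G_false _ _ _ _ _
  | some r =>
    rw [Option.getD_some, C3_vec e r (C3_len e n Z r hc)]

theorem C3_blklen (e n L : ℕ) (Z : List Bool) (c : List Bool → List Bool)
    (hc : ∀ r, (c r).length = L) : (blkB e n L Z c).length = L + 2 := by
  rw [C3_blk]
  unfold C3_G
  split_ifs <;> simp [hc]

/-- splitting of a vector -/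
def C3_sp (a b : ℕ) : (Fin (a + b) → Bool) ≃ (Fin a → Bool) × (Fin b → Bool) :=
  (Fin.appendEquiv a b).symm

theorem C3_sp_ofFn (a b : ℕ) (f : Fin (a + b) → Bool) :
    List.ofFn f = List.ofFn (C3_sp a b f).1 ++ List.ofFn (C3_sp a b f).2 := by
  have h : f = Fin.append (C3_sp a b f).1 (C3_sp a b f).2 :=
    ((Fin.appendEquiv a b).apply_symm_apply f).symm
  conv_lhs => rw [h]
  rw [List.ofFn_fin_append]

private abbrev PV (k : ℕ) : Type := Fin k → Bool

private def C3_E1 (g h t : ℕ) : PV g × PV h × PV t ≃ (PV g × PV t) × PV h where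
  toFun w := ((w.1, w.2.2), w.2.1)
  invFun z := (z.1.1, z.2, z.1.2)
  left_inv := fun _ => rfl
  right_inv := fun _ => rfl

private def C3_E2 (g e h t : ℕ) : PV g × PV e × PV (h + t) ≃ (PV g × PV t) × (PV h × PV e) where
  toFun w := ((w.1, (C3_sp _ _ w.2.2).2), ((C3_sp _ _ w.2.2).1, w.2.1))
  invFun z := (z.1.1, z.2.2, (C3_sp _ _).symm (z.2.1, z.1.2))
  left_inv := by
    rintro ⟨s, r, c⟩
    simp
  right_inv := by
    rintro ⟨⟨s, w⟩, ⟨Z, r⟩⟩
    simp

/-- probabilities for one block -/
theorem y_C3 (h : Y_C0) : Y_C3 := by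
  intro S encB A A' t hB' hC n b hn
  -- left hand side
  have hL : (Sb S encB).acp A t n b =
      pr fun x : (PV (S.g.eval n) × PV (t.eval n)) × PV (2 * hB (S.e.eval n) n) =>
        decide (A (c4 (ones n) (S.pk (pairBits (ones n) (List.ofFn x.1.1)))
          (C3_G (hB (S.e.eval n) n) (S.len.eval n) (coinB (S.e.eval n) n (List.ofFn x.2)).isSome
            ((List.ofFn x.2).count true)
            (En S n (S.pk (pairBits (ones n) (List.ofFn x.1.1))) b
              (List.ofFn (vec (S.e.eval n) ((coinB (S.e.eval n) n (List.ofFn x.2)).getD [])))))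
          (List.ofFn x.1.2)) = [true]) := by
    unfold Scheme.acp
    have hK : Polynomial.eval n (Sb S encB).e = 2 * hB (S.e.eval n) n := by
      simp [Sb, hB]
    rw [hK]
    apply C3_equiv (C3_E1 (S.g.eval n) (2 * hB (S.e.eval n) n) (t.eval n))
    rintro ⟨s, Z, w⟩
    show decide (A (c4 (ones n) (S.pk (pairBits (ones n) (List.ofFn s)))
      ((Sb S encB).ct n (List.ofFn s) b (List.ofFn Z)) (List.ofFn w)) = [true]) =
      decide (A (c4 (ones n) (S.pk (pairBits (ones n) (List.ofFn s)))
          (C3_G (hB (S.e.eval n) n) (S.len.eval n) (coinB (S.e.eval n) n (List.ofFn Z)).isSome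
            ((List.ofFn Z).count true)
            (En S n (S.pk (pairBits (ones n) (List.ofFn s))) b
              (List.ofFn (vec (S.e.eval n) ((coinB (S.e.eval n) n (List.ofFn Z)).getD [])))))
          (List.ofFn w)) = [true])
    have hct : (Sb S encB).ct n (List.ofFn s) b (List.ofFn Z) =
        blkB (S.e.eval n) n (S.len.eval n) (List.ofFn Z)
          (En S n (S.pk (pairBits (ones n) (List.ofFn s))) b) := by
      have hlen : Polynomial.eval n (Sb S encB).len = S.len.eval n + 2 := by
        simp [Sb]
      show fit (Polynomial.eval n (Sb S encB).len)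
        (encB (c4 (ones n) (S.pk (pairBits (ones n) (List.ofFn s))) [b] (List.ofFn Z))) = _
      rw [hB', hlen]
      apply C3_fit
      apply C3_blklen
      intro r
      exact C3_fitlen _ _
    rw [hct, C3_blk2]
  -- right hand side
  have hR : S.acp A' (2 * ((S.e + 1) * Polynomial.X) + t) n b =
      pr fun x : (PV (S.g.eval n) × PV (t.eval n)) ×
          (PV (2 * hB (S.e.eval n) n) × PV (S.e.eval n)) =>
        decide (A (c4 (ones n) (S.pk (pairBits (ones n) (List.ofFn x.1.1)))
          (C3_G (hB (S.e.eval n) n) (S.len.eval n)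
            (coinB (S.e.eval n) n (List.ofFn x.2.1)).isSome ((List.ofFn x.2.1).count true)
            (En S n (S.pk (pairBits (ones n) (List.ofFn x.1.1))) b (List.ofFn x.2.2)))
          (List.ofFn x.1.2)) = [true]) := by
    unfold Scheme.acp
    have hK : Polynomial.eval n (2 * ((S.e + 1) * Polynomial.X) + t) =
        2 * hB (S.e.eval n) n + t.eval n := by
      simp [hB]
    rw [hK]
    apply C3_equiv (C3_E2 (S.g.eval n) (S.e.eval n) (2 * hB (S.e.eval n) n) (t.eval n))
    rintro ⟨s, r, c⟩
    show decide (A' (c4 (ones n) (S.pk (pairBits (ones n) (List.ofFn s)))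
      (S.ct n (List.ofFn s) b (List.ofFn r)) (List.ofFn c)) = [true]) = _
    rw [C3_sp_ofFn _ _ c, hC n _ _ _ _ (by simp) (by simp), C3_blk]
    rfl
  rw [hL, hR]
  apply C3_congr
  rintro ⟨s, w⟩
  exact h (S.e.eval n) n hn (fun o k r =>
    decide (A (c4 (ones n) (S.pk (pairBits (ones n) (List.ofFn s)))
      (C3_G (hB (S.e.eval n) n) (S.len.eval n) o k
        (En S n (S.pk (pairBits (ones n) (List.ofFn s))) b (List.ofFn r)))
      (List.ofFn w)) = [true])) (fun k r r' => by
        show decide _ = decide _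
        rw [C3_G_false _ _ _ _ (En S n (S.pk (pairBits (ones n) (List.ofFn s))) b (List.ofFn r'))])

end Pool.Agent.H547U4
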