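import Pool.Agent.H547U4.Stm
import Pool.Agent.H547S1.T_PBT

/-!
# Repetition and decryption in polynomial time
-/

set_option autoImplicit false

namespace Pool.Agent.H547U4

open Pool.Agent.H547R6 Pool.Agent.H547R7 Pool.Agent.H547R8 Pool.Agent.NPC Pool.Agent.H547S1
open Pool.Agent.H583R2 Pool.Agent.H545R2.KS

section

variable {α : Type} [H583R2.TEnc α]

theorem D_En {S : Scheme} (hS : PolyTime S.enc) {n : α → ℕ} {pk r : α → List Bool}
    {b : α → Bool} (hn : PF n) (hpk : PF pk) (hb : PF b) (hr : PF r) :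
    PF (fun a => En S (n a) (pk a) (b a) (r a)) :=
  PBT_fit (pf_eval hn S.len) ((pf_of_polyTime hS).comp (PBT_c4 (PBT_ones hn) hpk
    (PF.cons hb (PF.const [])) hr))

theorem D_cn (S : Scheme) {n i : α → ℕ} {R : α → List Bool} (hn : PF n) (hi : PF i)
    (hR : PF R) : PF (fun a => cn S (n a) (R a) (i a)) :=
  PF.take (pf_eval hn S.e) (PF.drop (PF.mul hi (pf_eval hn S.e)) hR)

theorem D_rep {S : Scheme} (N : Polynomial ℕ) (hS : PolyTime S.enc) {n : α → ℕ}
    {pk R : α → List Bool} {b : α → Bool} (hn : PF n) (hpk : PF pk) (hb : PF b) (hR : PF R) :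
    PF (fun a => (List.range (N.eval (n a))).flatMap fun i =>
      En S (n a) (pk a) (b a) (cn S (n a) (R a) i)) :=
  PF.flatMap (l := fun a => List.range (N.eval (n a)))
    (f := fun a i => En S (n a) (pk a) (b a) (cn S (n a) (R a) i)) (PF.range (pf_eval hn N))
    (D_En hS (hn.comp PF.fst) (hpk.comp PF.fst) (hb.comp PF.fst)
      (D_cn S (hn.comp PF.fst) PF.snd (hR.comp PF.fst)))

theorem D_dec {S : Scheme} (N : Polynomial ℕ) (hS : PolyTime S.dec) {n : α → ℕ}
    {sk u : α → List Bool} (hn : PF n) (hsk : PF sk) (hu : PF u) :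
    PF (fun a => decP S (N.eval (n a)) (n a) (sk a) (u a)) := by
  have hlen : PF (fun a => S.len.eval (n a)) := pf_eval hn S.len
  have ho : PF (fun a => (List.range (N.eval (n a))).find? fun i =>
      (u a).getD (i * (S.len.eval (n a) + 2)) false &&
        !((u a).getD (i * (S.len.eval (n a) + 2) + 1) false)) :=
    PF.find (l := fun a => List.range (N.eval (n a)))
      (f := fun a i => (u a).getD (i * (S.len.eval (n a) + 2)) false &&
        !((u a).getD (i * (S.len.eval (n a) + 2) + 1) false)) (PF.range (pf_eval hn N))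
      (PF.and (PF.listGetD (PF.mul PF.snd (PF.add (hlen.comp PF.fst) (PF.const 2)))
          (hu.comp PF.fst) (PF.const false))
        (PF.not (PF.listGetD (PF.add (PF.mul PF.snd (PF.add (hlen.comp PF.fst) (PF.const 2)))
          (PF.const 1)) (hu.comp PF.fst) (PF.const false))))
  refine (PF.ite (PF.isSome ho) ((pf_of_polyTime hS).comp (PBT_c3 (PBT_ones hn) hsk
    (PF.take hlen (PF.drop (PF.add (PF.mul (PF.getD ho (PF.const 0))
      (PF.add hlen (PF.const 2))) (PF.const 2)) hu)))) (PF.const [])).congr fun a => ?_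
  unfold decP
  cases (List.range (N.eval (n a))).find? (fun i =>
      (u a).getD (i * (S.len.eval (n a) + 2)) false &&
        !((u a).getD (i * (S.len.eval (n a) + 2) + 1) false)) <;> rfl

end

theorem y_D : Y_D := by
  refine ⟨fun S N hE => ?_, fun S N hD => ?_⟩
  · refine ⟨fun z => (List.range (N.eval (spl z).1.length)).flatMap fun i =>
      En S (spl z).1.length (spl (spl z).2).1 ((spl (spl (spl z).2).2).1.headD false)
        (cn S (spl z).1.length (spl (spl (spl z).2).2).2 i), ?_, ?_⟩
    · apply polyTime_of_pf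
      exact D_rep N hE (PF.length PBT_p1) PBT_p2 (PF.headD PBT_p3 (PF.const false)) PBT_q3
    · intro n pk b R
      simp only [c4, spl_pairBits, PBT_length_ones, List.headD_cons]
  · refine ⟨fun z => decP S (N.eval (spl z).1.length) (spl z).1.length (spl (spl z).2).1
      (spl (spl z).2).2, ?_, ?_⟩
    · apply polyTime_of_pf
      exact D_dec N hD (PF.length PBT_p1) PBT_p2 PBT_q2
    · intro n sk u
      simp only [c3, spl_pairBits, PBT_length_ones]

end Pool.Agent.H547U4
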