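import Pool.Agent.H547U4.Stm

/-!
# E1: probabilities for one block
-/

set_option autoImplicit false

namespace Pool.Agent.H547U4

open Pool.Agent.H547R6 Pool.Agent.H547R7 Pool.Agent.H547R8 Pool.Agent.NPC Pool.Agent.H547S1

open Finset

theorem E1_count (m : ℕ) (Z : Fin m → Bool) :
    (List.ofFn Z).count true = (univ.filter fun i => Z i = true).card := by
  induction m with
  | zero => simp
  | succ m ih =>
    rw [List.ofFn_succ, List.count_cons, ih, Fin.card_filter_univ_succ', add_comm]
    congr 1
    cases Z 0 <;> simp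

theorem E1_card (m k : ℕ) :
    (univ.filter fun Z : Fin m → Bool => (List.ofFn Z).count true = k).card = m.choose k := by
  have h1 : ((univ : Finset (Fin m)).powersetCard k).card = m.choose k := by
    rw [card_powersetCard, card_univ, Fintype.card_fin]
  rw [← h1]
  refine card_nbij' (fun Z => univ.filter fun i => Z i = true)
    (fun s => fun i => decide (i ∈ s)) ?_ ?_ ?_ ?_
  · intro Z hZ
    have h2 : (List.ofFn Z).count true = k := by simpa using hZ
    rw [E1_count] at h2
    simp [mem_powersetCard, h2]
  · intro s hs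
    have h2 : s.card = k := by simpa [mem_powersetCard] using hs
    simp [E1_count, h2]
  · intro Z _
    funext i
    cases h : Z i <;> simp [h]
  · intro s _
    ext i
    simp

theorem E1_getD (m : ℕ) (Z : Fin m → Bool) (p : ℕ) (hp : p < m) :
    (List.ofFn Z).getD p false = Z ⟨p, hp⟩ := by
  rw [List.getD_eq_getElem _ _ (by simpa using hp)]
  simp

/-- the strings with equal pairs -/
def E1_S (h a n : ℕ) : Finset (Fin (2 * h) → Bool) :=
  univ.filter fun Z : Fin (2 * h) → Bool => ∀ k, k < n →
    (List.ofFn Z).getD (a + k) false = (List.ofFn Z).getD (h + (a + k)) false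

/-- replacement of the second components -/
def E1_rep (h a n : ℕ) (Z : Fin (2 * h) → Bool) (r : Fin n → Bool) (j : Fin (2 * h)) : Bool :=
  if hj : h + a ≤ j.1 ∧ j.1 - (h + a) < n then r ⟨j.1 - (h + a), hj.2⟩ else Z j

theorem E1_grp (h a n : ℕ) (ha : a + n ≤ h) : (E1_S h a n).card * 2 ^ n ≤ 2 ^ (2 * h) := by
  have h1 : (E1_S h a n).card * 2 ^ n =
      (E1_S h a n ×ˢ (univ : Finset (Fin n → Bool))).card := by
    rw [card_product, card_univ]
    simp
  have h2 : 2 ^ (2 * h) = (univ : Finset (Fin (2 * h) → Bool)).card := by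
    rw [card_univ]
    simp
  rw [h1, h2]
  refine card_le_card_of_injOn (fun w => E1_rep h a n w.1 w.2) (fun _ _ => by simp) ?_
  rintro ⟨Z, r⟩ hZ ⟨Z', r'⟩ hZ' heq
  have hZ1 : ∀ k, k < n → (List.ofFn Z).getD (a + k) false =
      (List.ofFn Z).getD (h + (a + k)) false := by
    have := (mem_product.mp (mem_coe.mp hZ)).1
    simpa [E1_S] using this
  have hZ1' : ∀ k, k < n → (List.ofFn Z').getD (a + k) false =
      (List.ofFn Z').getD (h + (a + k)) false := by
    have := (mem_product.mp (mem_coe.mp hZ')).1
    simpa [E1_S] using this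
  have hr : r = r' := by
    funext k
    have hk := k.2
    have h3 := congrFun heq ⟨h + a + k.1, by omega⟩
    simp only [E1_rep] at h3
    rw [dif_pos (by constructor <;> omega), dif_pos (by constructor <;> omega)] at h3
    have h4 : (⟨h + a + k.1 - (h + a), by omega⟩ : Fin n) = k := by
      apply Fin.ext
      simp
    rw [h4] at h3
    exact h3
  have hout : ∀ j : Fin (2 * h), ¬ (h + a ≤ j.1 ∧ j.1 - (h + a) < n) → Z j = Z' j := by
    intro j hj
    have h3 := congrFun heq j
    simp only [E1_rep] at h3
    rw [dif_neg hj, dif_neg hj] at h3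
    exact h3
  have hZZ : Z = Z' := by
    funext j
    by_cases hj : h + a ≤ j.1 ∧ j.1 - (h + a) < n
    · have hjk := hZ1 (j.1 - (h + a)) hj.2
      have hjk' := hZ1' (j.1 - (h + a)) hj.2
      have hj2 := j.2
      rw [E1_getD _ _ _ (by omega), E1_getD _ _ _ (by omega)] at hjk hjk'
      have h5 : (⟨h + (a + (j.1 - (h + a))), by omega⟩ : Fin (2 * h)) = j := by
        apply Fin.ext
        show h + (a + (j.1 - (h + a))) = j.1
        omega
      rw [h5] at hjk hjk'
      rw [← hjk, ← hjk']
      apply hout
      show ¬ (h + a ≤ a + (j.1 - (h + a)) ∧ a + (j.1 - (h + a)) - (h + a) < n)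
      omega
    · exact hout j hj
  rw [hr, hZZ]

theorem y_E1 : Y_E1 := by
  intro e n hn
  constructor
  · have h1 := Nat.four_pow_le_two_mul_add_one_mul_central_binom (hB e n)
    have h2 : ((4 : ℝ) ^ hB e n) ≤ (2 * (hB e n : ℝ) + 1) * ((2 * hB e n).choose (hB e n) : ℕ) := by
      exact_mod_cast h1
    unfold pr
    simp only [decide_eq_true_eq]
    rw [E1_card]
    have h3 : (Fintype.card (Fin (2 * hB e n) → Bool) : ℝ) = 4 ^ hB e n := by
      rw [Fintype.card_fun, Fintype.card_bool, Fintype.card_fin, pow_mul]
      norm_num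
    rw [h3, div_le_div_iff₀ (by positivity) (by positivity)]
    linarith
  · have hsub : (univ.filter fun Z : Fin (2 * hB e n) → Bool =>
        (coinB e n (List.ofFn Z)).isNone = true) ⊆
        (range e).biUnion fun i => E1_S (hB e n) (i * n) n := by
      intro Z hZ
      rw [mem_filter] at hZ
      have hZ2 := hZ.2
      unfold coinB at hZ2
      by_cases hall : ((List.range e).all fun i =>
          (posB n (hB e n) (List.ofFn Z) i).isSome) = true
      · rw [if_pos hall] at hZ2
        simp at hZ2
      · rw [List.all_eq_true] at hall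
        push Not at hall
        obtain ⟨i, hi, hi2⟩ := hall
        rw [mem_biUnion]
        refine ⟨i, mem_range.mpr (List.mem_range.mp hi), ?_⟩
        rw [E1_S, mem_filter]
        refine ⟨mem_univ _, fun k hk => ?_⟩
        have h4 : posB n (hB e n) (List.ofFn Z) i = none := by
          cases hp : posB n (hB e n) (List.ofFn Z) i with
          | none => rfl
          | some v => rw [hp] at hi2; simp at hi2
        unfold posB at h4
        rw [List.find?_eq_none] at h4
        have h5 := h4 k (List.mem_range.mpr hk)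
        revert h5
        cases (List.ofFn Z).getD (i * n + k) false <;>
          cases (List.ofFn Z).getD (hB e n + (i * n + k)) false <;> simp
    have hgrp : ∀ i ∈ range e, ((E1_S (hB e n) (i * n) n).card : ℝ) ≤
        (2 : ℝ) ^ (2 * hB e n) * (1 / 2) ^ n := by
      intro i hi
      have hi2 := mem_range.mp hi
      have h6 : i * n + n ≤ hB e n := by
        unfold hB
        nlinarith
      have h7 := E1_grp (hB e n) (i * n) n h6
      have h8 : ((E1_S (hB e n) (i * n) n).card : ℝ) * 2 ^ n ≤ 2 ^ (2 * hB e n) := by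
        exact_mod_cast h7
      rw [one_div, inv_pow, ← div_eq_mul_inv, le_div_iff₀ (by positivity)]
      exact h8
    unfold pr
    have h9 : (Fintype.card (Fin (2 * hB e n) → Bool) : ℝ) = 2 ^ (2 * hB e n) := by
      rw [Fintype.card_fun, Fintype.card_bool, Fintype.card_fin]
      norm_num
    rw [h9, div_le_iff₀ (by positivity)]
    calc ((univ.filter fun Z : Fin (2 * hB e n) → Bool =>
        (coinB e n (List.ofFn Z)).isNone = true).card : ℝ)
        ≤ (((range e).biUnion fun i => E1_S (hB e n) (i * n) n).card : ℝ) := by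
          exact_mod_cast card_le_card hsub
      _ ≤ ∑ i ∈ range e, ((E1_S (hB e n) (i * n) n).card : ℝ) := by
          exact_mod_cast card_biUnion_le
      _ ≤ ∑ _i ∈ range e, (2 : ℝ) ^ (2 * hB e n) * (1 / 2) ^ n := sum_le_sum hgrp
      _ = (e : ℝ) * (1 / 2) ^ n * 2 ^ (2 * hB e n) := by
          rw [sum_const, card_range, nsmul_eq_mul]
          ring

end Pool.Agent.H547U4
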