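import Pool.Agent.H547U4.Stm

/-!
# Correctness of the repeated scheme: the first valid block (task E3, helper757)
-/

set_option autoImplicit false

namespace Pool.Agent.H547U4

open Pool.Agent.H547R6 Pool.Agent.H547R7 Pool.Agent.H547R8 Pool.Agent.NPC Pool.Agent.H547S1

/-! ### fractions -/

theorem E3_pr_sum {Ω : Type} [Fintype Ω] (p : Ω → Bool) :
    pr p = (∑ x : Ω, if p x = true then (1 : ℝ) else 0) / Fintype.card Ω := by
  unfold pr
  rw [Finset.sum_ite, Finset.sum_const_zero, add_zero, Finset.sum_const, nsmul_eq_mul, mul_one]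

theorem E3_pr_equiv {Ω Ω' : Type} [Fintype Ω] [Fintype Ω'] (e : Ω ≃ Ω') (p : Ω' → Bool) :
    pr p = pr fun x => p (e x) := by
  rw [E3_pr_sum, E3_pr_sum, Fintype.card_congr e,
    ← Equiv.sum_comp e (fun x => if p x = true then (1 : ℝ) else 0)]

theorem E3_pr_prod {α β : Type} [Fintype α] [Fintype β] (G : α → β → Bool) :
    (pr fun w : α × β => G w.1 w.2) = (∑ a : α, pr fun b => G a b) / Fintype.card α := by
  simp only [E3_pr_sum]
  rw [Fintype.sum_prod_type, Fintype.card_prod, ← Finset.sum_div, Nat.cast_mul, div_div, mul_comm]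

theorem E3_pr_not {Ω : Type} [Fintype Ω] [Nonempty Ω] (p : Ω → Bool) :
    (pr fun x => !p x) = 1 - pr p := by
  have hc : (Fintype.card Ω : ℝ) ≠ 0 := Nat.cast_ne_zero.2 Fintype.card_ne_zero
  rw [eq_sub_iff_add_eq, E3_pr_sum, E3_pr_sum, ← add_div, ← Finset.sum_add_distrib,
    div_eq_one_iff_eq hc]
  have : ∀ x : Ω, ((if (!p x) = true then (1 : ℝ) else 0) + if p x = true then (1 : ℝ) else 0) = 1 := by
    intro x
    cases p x <;> simp
  rw [Finset.sum_congr rfl fun x _ => this x]
  simp

theorem E3_pr_nonneg {Ω : Type} [Fintype Ω] (p : Ω → Bool) : 0 ≤ pr p := by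
  unfold pr
  positivity

theorem E3_pr_le_one {Ω : Type} [Fintype Ω] [Nonempty Ω] (p : Ω → Bool) : pr p ≤ 1 := by
  have h1 := E3_pr_nonneg fun x => !p x
  rw [E3_pr_not] at h1
  linarith

theorem E3_pr_ite {α β : Type} [Fintype α] [Fintype β] [Nonempty α] [Nonempty β]
    (v g : α → Bool) (f : β → Bool) :
    (pr fun w : α × β => if v w.1 = true then g w.1 else f w.2) =
      (pr fun a => v a && g a) + (1 - pr v) * pr f := by
  rw [E3_pr_prod (fun a b => if v a = true then g a else f b), ← E3_pr_not v, E3_pr_sum (fun a => v a && g a),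
    E3_pr_sum (fun a => !v a), div_mul_eq_mul_div, ← add_div, Finset.sum_mul,
    ← Finset.sum_add_distrib]
  congr 1
  refine Finset.sum_congr rfl fun a _ => ?_
  have hc : (Fintype.card β : ℝ) ≠ 0 := Nat.cast_ne_zero.2 Fintype.card_ne_zero
  cases hv : v a
  · simp
  · cases hg : g a
    · simp [pr]
    · simp [pr, hc]

theorem E3_pr_and {α β : Type} [Fintype α] [Fintype β] (g : α → Bool) (f : β → Bool) :
    (pr fun w : α × β => g w.1 && f w.2) = pr g * pr f := by
  rw [E3_pr_prod (fun a b => g a && f b), E3_pr_sum g, div_mul_eq_mul_div, Finset.sum_mul]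
  congr 1
  refine Finset.sum_congr rfl fun a _ => ?_
  cases hg : g a
  · simp [pr]
  · simp

theorem E3_split (L a b : ℕ) (hL : L = a + b) (F : List Bool → Bool) :
    (pr fun R : Fin L → Bool => F (List.ofFn R)) =
      pr fun w : (Fin a → Bool) × (Fin b → Bool) => F (List.ofFn w.1 ++ List.ofFn w.2) := by
  subst hL
  rw [E3_pr_equiv (Fin.appendEquiv a b)]
  congr 1
  funext w
  obtain ⟨X, Y⟩ := w
  have hap : List.ofFn ((Fin.appendEquiv a b) (X, Y)) = List.ofFn X ++ List.ofFn Y := by
    simp [Fin.appendEquiv, List.ofFn_fin_append]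
  rw [hap]

/-! ### blocks -/

/-- a block is valid -/
def E3_v (e n : ℕ) (Z : List Bool) : Bool :=
  decide (Z.count true = hB e n) && (coinB e n Z).isSome

/-- the error event, block by block -/
def E3_err (e n M : ℕ) (bad : List Bool → Bool) : ℕ → List Bool → Bool
  | 0, _ => true
  | K + 1, R => if E3_v e n (R.take M) = true then bad ((coinB e n (R.take M)).getD [])
      else E3_err e n M bad K (R.drop M)

theorem E3_coin_len {e n : ℕ} {Z r : List Bool} (h : coinB e n Z = some r) : r.length = e := by
  unfold coinB at h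
  split_ifs at h
  rw [← Option.some.inj h]
  simp

theorem E3_one (h : Y_C0) (e n : ℕ) (hn : 1 ≤ n) (bad : List Bool → Bool) :
    (pr fun Z : Fin (2 * hB e n) → Bool => E3_v e n (List.ofFn Z) &&
      bad ((coinB e n (List.ofFn Z)).getD [])) =
    (pr fun Z : Fin (2 * hB e n) → Bool => E3_v e n (List.ofFn Z)) *
      pr fun r : Fin e → Bool => bad (List.ofFn r) := by
  have h1 := h e n hn (fun s k r => s && decide (k = hB e n) && bad (List.ofFn r))
    (fun k r r' => by simp)
  rw [← E3_pr_and]
  have h2 : (fun w : (Fin (2 * hB e n) → Bool) × (Fin e → Bool) =>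
      E3_v e n (List.ofFn w.1) && bad (List.ofFn w.2)) =
      fun w => (coinB e n (List.ofFn w.1)).isSome &&
        decide ((List.ofFn w.1).count true = hB e n) && bad (List.ofFn w.2) := by
    funext w
    unfold E3_v
    rw [Bool.and_comm (decide _) (Option.isSome _)]
  rw [h2, ← h1]
  congr 1
  funext Z
  unfold E3_v
  rw [Bool.and_comm (decide _) (Option.isSome _)]
  rcases hc : coinB e n (List.ofFn Z) with _ | r
  · simp
  · have hl := E3_coin_len hc
    have h3 : List.ofFn (vec e r) = r := by
      refine List.ext_getElem (by simp [hl]) fun i h1 h2 => ?_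
      simp [vec, h2]
    simp [h3]

theorem E3_pr (h : Y_C0) (e n : ℕ) (hn : 1 ≤ n) (bad : List Bool → Bool) (K : ℕ) :
    ∀ X : ℕ, X = K * (2 * hB e n) →
    (pr fun R : Fin X → Bool => E3_err e n (2 * hB e n) bad K (List.ofFn R)) ≤
      (1 - pr fun Z : Fin (2 * hB e n) → Bool => E3_v e n (List.ofFn Z)) ^ K +
        pr fun r : Fin e → Bool => bad (List.ofFn r) := by
  induction K with
  | zero =>
    intro X _
    rw [pow_zero]
    have h1 := E3_pr_le_one (fun R : Fin X → Bool => E3_err e n (2 * hB e n) bad 0 (List.ofFn R))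
    have h2 := E3_pr_nonneg (fun r : Fin e → Bool => bad (List.ofFn r))
    linarith
  | succ K ih =>
    intro X hX
    have hX' : X = 2 * hB e n + K * (2 * hB e n) := by
      rw [hX]
      ring
    rw [E3_split X _ _ hX' (E3_err e n (2 * hB e n) bad (K + 1))]
    have h1 : (fun w : (Fin (2 * hB e n) → Bool) × (Fin (K * (2 * hB e n)) → Bool) =>
        E3_err e n (2 * hB e n) bad (K + 1) (List.ofFn w.1 ++ List.ofFn w.2)) =
        fun w => if E3_v e n (List.ofFn w.1) = true then bad ((coinB e n (List.ofFn w.1)).getD [])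
          else E3_err e n (2 * hB e n) bad K (List.ofFn w.2) := by
      funext w
      have hl : (List.ofFn w.1).length = 2 * hB e n := by simp
      simp only [E3_err]
      rw [List.take_left' hl, List.drop_left' hl]
    rw [h1, E3_pr_ite (fun Z : Fin (2 * hB e n) → Bool => E3_v e n (List.ofFn Z))
      (fun Z => bad ((coinB e n (List.ofFn Z)).getD []))
      (fun R : Fin (K * (2 * hB e n)) → Bool => E3_err e n (2 * hB e n) bad K (List.ofFn R)),
      E3_one h e n hn bad]
    have h2 := ih _ rfl
    have h3 := E3_pr_le_one (fun Z : Fin (2 * hB e n) → Bool => E3_v e n (List.ofFn Z))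
    set p := pr fun Z : Fin (2 * hB e n) → Bool => E3_v e n (List.ofFn Z)
    set q := pr fun r : Fin e → Bool => bad (List.ofFn r)
    have h4 := mul_le_mul_of_nonneg_left h2 (sub_nonneg.2 h3)
    rw [pow_succ]
    linarith

/-! ### decryption -/

theorem E3_fit_len (m : ℕ) (l : List Bool) : (fit m l).length = m := by
  unfold fit
  simp

theorem E3_fit_self (m : ℕ) (l : List Bool) (h : l.length = m) : fit m l = l := by
  unfold fit
  rw [← h, List.take_left]

theorem E3_blk_len (e n L : ℕ) (Z : List Bool) (c : List Bool → List Bool)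
    (hc : ∀ r, (c r).length = L) : (blkB e n L Z c).length = L + 2 := by
  unfold blkB
  split_ifs
  · simp
  · rcases coinB e n Z with _ | r
    · simp
    · simp [hc]
  · simp

theorem E3_blk_valid (e n L : ℕ) (Z : List Bool) (c : List Bool → List Bool)
    (h : E3_v e n Z = true) :
    blkB e n L Z c = true :: false :: c ((coinB e n Z).getD []) := by
  unfold E3_v at h
  rw [Bool.and_eq_true, decide_eq_true_eq] at h
  unfold blkB
  rw [if_neg (by omega), if_pos h.1]
  rcases hc : coinB e n Z with _ | r
  · rw [hc] at h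
    simp at h
  · simp

theorem E3_blk_not (e n L : ℕ) (Z : List Bool) (c : List Bool → List Bool)
    (h : ¬ E3_v e n Z = true) (l : List Bool) :
    ((blkB e n L Z c ++ l).getD 0 false && !((blkB e n L Z c ++ l).getD 1 false)) = false := by
  unfold E3_v at h
  rw [Bool.and_eq_true, decide_eq_true_eq] at h
  unfold blkB
  split_ifs with h1 h2
  · simp [List.replicate_succ]
  · rcases hc : coinB e n Z with _ | r
    · simp
    · exact absurd ⟨h2, by rw [hc]; rfl⟩ h
  · simp [List.replicate_succ]

/-- decryption, block by block -/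
theorem E3_decP_succ (S : Scheme) (K n : ℕ) (sk u : List Bool) :
    decP S (K + 1) n sk u =
      if (u.getD 0 false && !(u.getD 1 false)) = true then
        S.dec (c3 (ones n) sk ((u.drop 2).take (S.len.eval n)))
      else decP S K n sk (u.drop (S.len.eval n + 2)) := by
  unfold decP
  rw [List.range_succ_eq_map, List.find?_cons]
  simp only [zero_mul, zero_add]
  cases hu : (u.getD 0 false && !(u.getD 1 false))
  · simp only [Bool.false_eq_true, if_false]
    rw [List.find?_map]
    have h1 : ((fun i => u.getD (i * (S.len.eval n + 2)) false &&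
        !(u.getD (i * (S.len.eval n + 2) + 1) false)) ∘ Nat.succ) =
        fun i => (u.drop (S.len.eval n + 2)).getD (i * (S.len.eval n + 2)) false &&
          !((u.drop (S.len.eval n + 2)).getD (i * (S.len.eval n + 2) + 1) false) := by
      funext i
      simp only [Function.comp, List.getD_eq_getElem?_getD, List.getElem?_drop]
      have e1 : (Nat.succ i) * (S.len.eval n + 2) = S.len.eval n + 2 + i * (S.len.eval n + 2) := by
        rw [Nat.succ_mul, add_comm]
      rw [e1]
      rfl
    rw [h1]
    rcases (List.range K).find? (fun i => (u.drop (S.len.eval n + 2)).getD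
        (i * (S.len.eval n + 2)) false &&
          !((u.drop (S.len.eval n + 2)).getD (i * (S.len.eval n + 2) + 1) false)) with _ | i
    · rfl
    · simp only [Option.map_some, List.drop_drop]
      congr 4
      rw [Nat.succ_mul]
      ring
  · simp

/-- all blocks -/
def E3_U (e n L M : ℕ) (c : List Bool → List Bool) (K : ℕ) (R : List Bool) : List Bool :=
  (List.range K).flatMap fun i => blkB e n L ((R.drop (i * M)).take M) c

theorem E3_U_succ (e n L M : ℕ) (c : List Bool → List Bool) (K : ℕ) (R : List Bool) :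
    E3_U e n L M c (K + 1) R = blkB e n L (R.take M) c ++ E3_U e n L M c K (R.drop M) := by
  unfold E3_U
  rw [List.range_succ_eq_map, List.flatMap_cons, List.flatMap_map]
  simp only [zero_mul, List.drop_zero, List.drop_drop]
  congr 1
  congr 1
  funext i
  have e1 : (Nat.succ i) * M = M + i * M := by rw [Nat.succ_mul, add_comm]
  rw [e1]

theorem E3_U_len (e n L M : ℕ) (c : List Bool → List Bool) (hc : ∀ r, (c r).length = L) (K : ℕ)
    (R : List Bool) : (E3_U e n L M c K R).length = K * (L + 2) := by
  induction K generalizing R with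
  | zero => simp [E3_U]
  | succ K ih =>
    rw [E3_U_succ, List.length_append, ih, E3_blk_len _ _ _ _ _ hc]
    ring

theorem E3_dec (S : Scheme) (n : ℕ) (sk : List Bool) (b : Bool) (c : List Bool → List Bool)
    (M : ℕ) (hc : ∀ r, (c r).length = S.len.eval n) (K : ℕ) (R : List Bool) :
    decide (decP S K n sk (E3_U (S.e.eval n) n (S.len.eval n) M c K R) ≠ [b]) =
      E3_err (S.e.eval n) n M (fun r => decide (S.dec (c3 (ones n) sk (c r)) ≠ [b])) K R := by
  induction K generalizing R with
  | zero => simp [decP, E3_err]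
  | succ K ih =>
    rw [E3_decP_succ, E3_U_succ]
    simp only [E3_err]
    by_cases hv : E3_v (S.e.eval n) n (R.take M) = true
    · rw [if_pos hv, E3_blk_valid _ _ _ _ _ hv]
      simp only [List.cons_append, List.getD_cons_zero, List.getD_cons_succ, Bool.not_false,
        Bool.and_self, if_true, List.drop_succ_cons, List.drop_zero]
      rw [List.take_left' (hc _)]
    · rw [if_neg hv, E3_blk_not _ _ _ _ _ hv]
      simp only [Bool.false_eq_true, if_false]
      rw [List.drop_left' (E3_blk_len _ _ _ _ _ hc), ih]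

theorem y_E3 (h : Y_C0) : Y_E3 := by
  intro S encB encN decN N hB1 hR hD n b hn
  have hMe : (Sb S encB).e.eval n = 2 * hB (S.e.eval n) n := by
    simp [Sb, hB]
  have hX : (rep (Sb S encB) N encN decN).e.eval n = N.eval n * (2 * hB (S.e.eval n) n) := by
    simp only [rep, Polynomial.eval_mul]
    rw [hMe]
  have hL : (rep (Sb S encB) N encN decN).len.eval n = N.eval n * (S.len.eval n + 2) := by
    simp [rep, Sb]
  have hct : ∀ (s R : List Bool), (rep (Sb S encB) N encN decN).ct n s b R =
      E3_U (S.e.eval n) n (S.len.eval n) (2 * hB (S.e.eval n) n)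
        (En S n (S.pk (pairBits (ones n) s)) b) (N.eval n) R := by
    intro s R
    have hc : ∀ r, (En S n (S.pk (pairBits (ones n) s)) b r).length = S.len.eval n := fun r =>
      E3_fit_len _ _
    unfold Scheme.ct
    rw [hL]
    have h1 : (rep (Sb S encB) N encN decN).enc (c4 (ones n)
        ((rep (Sb S encB) N encN decN).pk (pairBits (ones n) s)) [b] R) =
        E3_U (S.e.eval n) n (S.len.eval n) (2 * hB (S.e.eval n) n)
        (En S n (S.pk (pairBits (ones n) s)) b) (N.eval n) R := by
      change encN (c4 (ones n) (S.pk (pairBits (ones n) s)) [b] R) = _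
      rw [hR]
      unfold E3_U
      congr 1
      funext i
      unfold cn
      rw [hMe]
      unfold En
      change fit ((S.len + 2).eval n) (encB _) = _
      rw [hB1]
      have h2 : (S.len + 2).eval n = S.len.eval n + 2 := by simp
      rw [h2]
      exact E3_fit_self _ _ (E3_blk_len _ _ _ _ _ hc)
    rw [h1]
    exact E3_fit_self _ _ (E3_U_len _ _ _ _ _ hc _ _)
  unfold Scheme.err
  simp only [hct]
  have hdec : ∀ sk u, (rep (Sb S encB) N encN decN).dec (c3 (ones n) sk u) =
      decP S (N.eval n) n sk u := fun sk u => hD n sk u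
  simp only [hdec]
  have hE : ∀ (s R : List Bool), decide (decP S (N.eval n) n (S.sk (pairBits (ones n) s))
      (E3_U (S.e.eval n) n (S.len.eval n) (2 * hB (S.e.eval n) n)
        (En S n (S.pk (pairBits (ones n) s)) b) (N.eval n) R) ≠ [b]) =
      E3_err (S.e.eval n) n (2 * hB (S.e.eval n) n)
        (fun r => decide (S.dec (c3 (ones n) (S.sk (pairBits (ones n) s))
          (En S n (S.pk (pairBits (ones n) s)) b r)) ≠ [b])) (N.eval n) R := fun s R =>
    E3_dec S n _ b _ _ (fun r => E3_fit_len _ _) _ R
  change (pr fun w : (Fin (S.g.eval n) → Bool) ×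
      (Fin ((rep (Sb S encB) N encN decN).e.eval n) → Bool) =>
    decide (decP S (N.eval n) n (S.sk (pairBits (ones n) (List.ofFn w.1)))
      (E3_U (S.e.eval n) n (S.len.eval n) (2 * hB (S.e.eval n) n)
        (En S n (S.pk (pairBits (ones n) (List.ofFn w.1))) b) (N.eval n) (List.ofFn w.2)) ≠ [b])) ≤ _
  simp only [hE]
  rw [E3_pr_prod (fun (s : Fin (S.g.eval n) → Bool)
    (R : Fin ((rep (Sb S encB) N encN decN).e.eval n) → Bool) =>
      E3_err (S.e.eval n) n (2 * hB (S.e.eval n) n)
        (fun r => decide (S.dec (c3 (ones n) (S.sk (pairBits (ones n) (List.ofFn s)))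
          (En S n (S.pk (pairBits (ones n) (List.ofFn s))) b r)) ≠ [b])) (N.eval n) (List.ofFn R)),
    E3_pr_prod (fun (s : Fin (S.g.eval n) → Bool) (r : Fin (S.e.eval n) → Bool) =>
      decide (S.dec (c3 (ones n) (S.sk (pairBits (ones n) (List.ofFn s)))
        (S.ct n (List.ofFn s) b (List.ofFn r))) ≠ [b]))]
  have hc : (0 : ℝ) < Fintype.card (Fin (S.g.eval n) → Bool) :=
    Nat.cast_pos.2 Fintype.card_pos
  rw [div_le_iff₀ hc, add_mul, div_mul_cancel₀ _ hc.ne']
  refine (Finset.sum_le_sum fun s _ => E3_pr h (S.e.eval n) n hn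
    (fun r => decide (S.dec (c3 (ones n) (S.sk (pairBits (ones n) (List.ofFn s)))
          (En S n (S.pk (pairBits (ones n) (List.ofFn s))) b r)) ≠ [b])) (N.eval n) _ hX).trans ?_
  rw [Finset.sum_add_distrib, Finset.sum_const, nsmul_eq_mul, Finset.card_univ, mul_comm]
  exact le_rfl

end Pool.Agent.H547U4
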