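import Pool.Agent.H547U4.Stm
import Pool.Agent.H547S1.T_PBC
import Pool.Agent.H547S1.T_CK3
import Pool.Agent.H547R8.T_CKT
import Pool.Agent.H547R8.T_LAY
import Pool.Agent.H547R7.T_SLI
import Pool.Agent.H547R7.T_THR
import Pool.Agent.H547R9.T_REN

/-!
# Monotone circuits for the bits of the ciphertext
-/

set_option autoImplicit false

namespace Pool.Agent.H547U4

open Pool.Agent.H547R6 Pool.Agent.H547R7 Pool.Agent.H547R8 Pool.Agent.NPC Pool.Agent.H547S1
open Pool.Agent.H583R2 Pool.Agent.H545R2.KS

/-- the encryption, with the key and the message separated from the coins -/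
def F1_F (enc : List Bool → List Bool) (w : List Bool) : List Bool :=
  enc (c4 (spl (spl w).1).1 (spl (spl (spl w).1).2).1 (spl (spl (spl w).1).2).2 (spl w).2)

theorem F1_pf (enc : List Bool → List Bool) (h : PolyTime enc) : PF (F1_F enc) := by
  have h1 : PF (fun z : List Bool => (spl z).1) := PF.fst' (PF.spl PF.id)
  have h2 : PF (fun z : List Bool => (spl z).2) := PF.snd' (PF.spl PF.id)
  have h3 := PF.snd' (PF.spl h1)
  unfold F1_F c4
  exact (pf_of_polyTime h).comp (pf_pairBits (PF.fst' (PF.spl h1))
    (pf_pairBits (PF.fst' (PF.spl h3)) (pf_pairBits (PF.snd' (PF.spl h3)) h2)))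

theorem F1_F_eq (enc : List Bool → List Bool) (a b c r : List Bool) :
    F1_F enc (pairBits (c3 a b c) r) = enc (c4 a b c r) := by
  unfold F1_F c3
  rw [spl_pairBits, spl_pairBits, spl_pairBits]

theorem F1_fml (L : ℕ) (f : ℕ → List Bool) (hf : ∀ i, (f i).length = L) (N : ℕ) :
    ((List.range N).flatMap f).length = N * L := by
  induction N with
  | zero => simp
  | succ N ih =>
    rw [List.range_succ, List.flatMap_append, List.length_append, ih]
    simp [hf]
    ring

theorem F1_fm (L : ℕ) (f : ℕ → List Bool) (hf : ∀ i, (f i).length = L) (N i p : ℕ) (hi : i < N)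
    (hp : p < L) : ((List.range N).flatMap f).getD (i * L + p) false = (f i).getD p false := by
  induction N with
  | zero => omega
  | succ N ih =>
    have hl := F1_fml L f hf N
    rw [List.range_succ, List.flatMap_append]
    rcases Nat.lt_or_ge i N with h | h
    · have h1 : i * L + p < N * L := by
        have h2 : (i + 1) * L ≤ N * L := Nat.mul_le_mul_right L h
        have h3 : (i + 1) * L = i * L + L := by ring
        omega
      rw [List.getD_append _ _ _ _ (by rw [hl]; exact h1)]
      exact ih h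
    · have h1 : i = N := by omega
      subst h1
      rw [List.getD_append_right _ _ _ _ (by rw [hl]; omega), hl]
      have h2 : i * L + p - i * L = p := by omega
      rw [h2]
      simp

theorem F1_wt (n : ℕ) (z : Fin n → Bool) : wt z = (List.ofFn z).count true := by
  unfold wt
  induction n with
  | zero => simp
  | succ n ih =>
    rw [Fin.card_filter_univ_succ, List.ofFn_succ, List.count_cons, ← ih fun i => z i.succ]
    cases z 0 <;> simp

theorem F1_blen (e n L : ℕ) (Z : List Bool) (c : List Bool → List Bool)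
    (hc : ∀ r, (c r).length = L) : (blkB e n L Z c).length = L + 2 := by
  unfold blkB
  split_ifs
  · simp
  · cases coinB e n Z with
    | none => simp
    | some r => simp [hc]
  · simp

theorem F1_slice (e n L m p : ℕ) (c : List Bool → List Bool) (hp : p < L + 2)
    (_hm : m = 2 * hB e n) :
    (fun z : Fin m → Bool => (blkB e n L (List.ofFn z) c).getD p false) =
      slice m (hB e n) (fun z => (blkB e n L (List.ofFn z) c).getD p false) := by
  funext z
  unfold slice
  beta_reduce
  rw [F1_wt]
  rcases lt_trichotomy (hB e n) ((List.ofFn z).count true) with h1 | h1 | h1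
  · have h3 : blkB e n L (List.ofFn z) c = List.replicate (L + 2) true := by
      unfold blkB
      rw [if_pos h1]
    rw [h3]
    simp [h1, List.getD_eq_getElem?_getD, hp]
  · simp [← h1]
  · have h2 : ¬ (hB e n < (List.ofFn z).count true) := by omega
    have h4 : ¬ ((List.ofFn z).count true = hB e n) := by omega
    have h3 : blkB e n L (List.ofFn z) c = List.replicate (L + 2) false := by
      unfold blkB
      rw [if_neg h2, if_neg h4]
    rw [h3]
    simp [h2, h4, List.getD_eq_getElem?_getD, hp]

theorem F1_mono {n s s' : ℕ} {f : BF n} (h : MC n s f) (hs : s ≤ s') : MC n s' f := by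
  rcases h with h | ⟨l, h1, h2, h3⟩
  · exact Or.inl h
  · exact Or.inr ⟨l, h1, h2.trans hs, h3⟩

theorem F1_ren {n m s : ℕ} (σ : Fin n → Fin m) {C : BF n} (h : MC n s C) :
    MC m s fun z => C fun i => z (σ i) := by
  rcases h with ⟨b, h⟩ | h
  · exact Or.inl ⟨b, fun x => h _⟩
  · exact Or.inr (H547R9.t_REN.1 MB n m s σ C h)

theorem F1_take {E : ℕ} (y : Fin E → Bool) (a k : ℕ) (h : a + k ≤ E) :
    ((List.ofFn y).drop a).take k = List.ofFn fun i : Fin k => y ⟨a + i, by omega⟩ := by
  apply List.ext_getElem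
  · rw [List.length_take, List.length_drop, List.length_ofFn, List.length_ofFn]
    omega
  · intro i h1 h2
    rw [List.getElem_take, List.getElem_drop, List.getElem_ofFn, List.getElem_ofFn]

theorem y_F1 : Y_F1 := by
  intro S encB encN decN N hpk henc hencB hSp hR
  obtain ⟨q, hq⟩ := (H547S1.t_CK3 (H547R8.t_CKT H547R8.t_LAY)) (F1_F encB)
    (polyTime_of_pf (F1_pf encB hencB))
  obtain ⟨P, hP⟩ := PBC_len S hpk
  refine ⟨4 * (2 * ((S.e + 1) * Polynomial.X) + 1) ^ 3 +
    2 * q.comp (P + 1 + 2 * ((S.e + 1) * Polynomial.X) + (S.len + 2)),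
    fun n hn s hs b j hj => ?_⟩
  set e : ℕ := S.e.eval n with he
  set L : ℕ := S.len.eval n with hL
  have hlen : (rep (Sb S encB) N encN decN).len.eval n = N.eval n * (L + 2) := by
    simp [rep, Sb, hL]
  have hEe : (rep (Sb S encB) N encN decN).e.eval n = N.eval n * (2 * hB e n) := by
    simp [rep, Sb, Pool.Agent.H547U4.hB, he]
  have hSe : (Sb S encB).e.eval n = 2 * hB e n := by
    simp [Sb, Pool.Agent.H547U4.hB, he]
  have hSl : (Sb S encB).len.eval n = L + 2 := by
    simp [Sb, hL]
  have hQ : (4 * (2 * ((S.e + 1) * Polynomial.X) + 1) ^ 3 +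
      2 * q.comp (P + 1 + 2 * ((S.e + 1) * Polynomial.X) + (S.len + 2)) : Polynomial ℕ).eval n =
      4 * (2 * hB e n + 1) ^ 3 + 2 * q.eval (P.eval n + 1 + 2 * hB e n + (L + 2)) := by
    simp [Pool.Agent.H547U4.hB, he, hL]
  rw [hQ]
  rw [hlen] at hj
  set pk : List Bool := S.pk (pairBits (ones n) s) with hpkd
  have hct : ∀ R, (rep (Sb S encB) N encN decN).ct n s b R =
      (List.range (N.eval n)).flatMap fun i => En (Sb S encB) n pk b (cn (Sb S encB) n R i) := by
    intro R
    have h1 : (rep (Sb S encB) N encN decN).ct n s b R =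
        fit ((rep (Sb S encB) N encN decN).len.eval n) (encN (c4 (ones n) pk [b] R)) := rfl
    rw [h1, hR n pk b R, hlen]
    apply PBC_fit_self
    apply F1_fml
    intro i
    unfold En
    rw [PBC_fit_len, hSl]
  have hL0 : 0 < L + 2 := by omega
  obtain ⟨i, p, hi, hp, rfl⟩ : ∃ i p, i < N.eval n ∧ p < L + 2 ∧ j = i * (L + 2) + p := by
    refine ⟨j / (L + 2), j % (L + 2), ?_, Nat.mod_lt _ hL0, ?_⟩
    · rwa [Nat.div_lt_iff_lt_mul hL0]
    · exact (Nat.div_add_mod' j (L + 2)).symm
  have hEn : ∀ Z, (En (Sb S encB) n pk b Z) = blkB e n L Z (En S n pk b) := by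
    intro Z
    unfold En
    have h1 := hSp n pk b Z
    have h2 : (Sb S encB).enc = encB := rfl
    rw [h2, h1, hSl]
    apply PBC_fit_self
    apply F1_blen
    intro r
    unfold En
    exact PBC_fit_len _ _
  have hfun : (fun z : Fin ((rep (Sb S encB) N encN decN).e.eval n + 1) → Bool =>
      ((rep (Sb S encB) N encN decN).ct n s b (List.ofFn fun i => z i.succ)).getD
        (i * (L + 2) + p) false) =
      fun z => (blkB e n L (cn (Sb S encB) n (List.ofFn fun i => z i.succ) i)
        (En S n pk b)).getD p false := by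
    funext z
    rw [hct, F1_fm (L + 2) _ ?_ (N.eval n) i p hi hp, hEn]
    intro k
    unfold En
    rw [PBC_fit_len, hSl]
  rw [hfun]
  have hfit : i * (2 * hB e n) + 2 * hB e n ≤ (rep (Sb S encB) N encN decN).e.eval n := by
    rw [hEe]
    have h2 : (i + 1) * (2 * hB e n) ≤ N.eval n * (2 * hB e n) := Nat.mul_le_mul_right _ hi
    have h3 : (i + 1) * (2 * hB e n) = i * (2 * hB e n) + 2 * hB e n := by ring
    omega
  generalize (rep (Sb S encB) N encN decN).e.eval n = E at hfit ⊢
  have hcn : ∀ z : Fin (E + 1) → Bool, cn (Sb S encB) n (List.ofFn fun i => z i.succ) i =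
      List.ofFn fun k : Fin (2 * hB e n) =>
        z (⟨i * (2 * hB e n) + k, by omega⟩ : Fin E).succ := by
    intro z
    unfold cn
    rw [hSe]
    exact F1_take (fun i : Fin E => z i.succ) (i * (2 * hB e n)) (2 * hB e n) hfit
  simp only [hcn]
  have hcl : (c3 (ones n) pk [b]).length ≤ P.eval n + 1 := by
    have h1 := hP n s hs
    unfold c3 at h1 ⊢
    rw [pairBits_length, pairBits_length] at h1 ⊢
    simp only [List.length_nil, List.length_cons] at h1 ⊢
    rw [← hpkd] at h1
    omega
  have hm1 : 1 ≤ 2 * hB e n := by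
    have h1 : 1 ≤ (e + 1) * n := Nat.one_le_iff_ne_zero.2 (by positivity)
    unfold Pool.Agent.H547U4.hB
    omega
  have hcomp := hq (c3 (ones n) pk [b]) (2 * hB e n) p hm1
  have hC : (fun r : Fin (2 * hB e n) → Bool =>
      (F1_F encB (pairBits (c3 (ones n) pk [b]) (List.ofFn r))).getD p false) =
      fun r => (blkB e n L (List.ofFn r) (En S n pk b)).getD p false := by
    funext r
    rw [F1_F_eq, hSp n pk b]
  rw [hC] at hcomp
  have hMC := (t_SLI t_THR) (2 * hB e n) _ (hB e n) _ hcomp
  rw [← F1_slice e n L (2 * hB e n) p (En S n pk b) hp rfl] at hMC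
  refine F1_mono (F1_ren (fun k : Fin (2 * hB e n) =>
    (⟨i * (2 * hB e n) + k, by omega⟩ : Fin E).succ) hMC) ?_
  have h6 : q.eval ((c3 (ones n) pk [b]).length + 2 * hB e n + p) ≤
      q.eval (P.eval n + 1 + 2 * hB e n + (L + 2)) :=
    H545R2.KS.eval_mono q (by omega)
  omega

end Pool.Agent.H547U4
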