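import Pool.Agent.H547U4.Stm

/-! # Combination of monotone circuits with one NOT gate (helper877) -/

set_option autoImplicit false

namespace Pool.Agent.H547U4

open Pool.Agent.H547R7

theorem F2_avail_cons {m : ℕ} {l : List (BF m)} {f g : BF m} (h : Avail l f) :
    Avail (g :: l) f := by
  rcases h with h | h
  · exact Or.inl (List.mem_cons_of_mem _ h)
  · exact Or.inr h

theorem F2_avail_app {m : ℕ} {k l : List (BF m)} {f : BF m} (h : Avail l f) :
    Avail (k ++ l) f := by
  rcases h with h | h
  · exact Or.inl (List.mem_append_right _ h)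
  · exact Or.inr h

theorem F2_avail_app' {m : ℕ} {k l : List (BF m)} {f : BF m} (h : Avail k f) :
    Avail (k ++ l) f := by
  rcases h with h | h
  · exact Or.inl (List.mem_append_left _ h)
  · exact Or.inr h

theorem F2_head {m : ℕ} {l : List (BF m)} {f : BF m} : Avail (f :: l) f :=
  Or.inl List.mem_cons_self

theorem F2_app {m : ℕ} {k : List (BF m)} (hk : Gates MB m k) (s t : ℕ) (l : List (BF m))
    (hl : AN m s t l) : AN m (s + k.length) t (k ++ l) := by
  induction hk with
  | nil => simpa using hl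
  | gate l0 k f g hf hg _ ih =>
    rw [List.cons_append, List.length_cons, ← Nat.add_assoc]
    rcases hf with hf | hf
    · obtain ⟨rfl, hf⟩ := Sigma.mk.inj_iff.1 hf
      have hf' := eq_of_heq hf
      subst hf'
      exact AN.and _ _ _ (g 0) (g 1) ih (F2_avail_app' (hg 0)) (F2_avail_app' (hg 1))
    · have hf1 : (⟨k, f⟩ : Σ k : ℕ, (Fin k → Bool) → Bool) = ⟨2, fun x => x 0 || x 1⟩ := hf
      obtain ⟨rfl, hf2⟩ := Sigma.mk.inj_iff.1 hf1
      have hf' := eq_of_heq hf2
      subst hf'
      exact AN.or _ _ _ (g 0) (g 1) ih (F2_avail_app' (hg 0)) (F2_avail_app' (hg 1))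

/-- one step -/
theorem F2_step (m s : ℕ) (g₀ g₁ : BF (m + 1)) (h0 : MC (m + 1) s g₀) (h1 : MC (m + 1) s g₁)
    (c : ℕ) (l : List (BF (m + 1))) (hl : AN (m + 1) c 1 l)
    (hN : Avail l (fun x : Fin (m + 1) → Bool => !x 0)) :
    ∃ (l' : List (BF (m + 1))) (c' : ℕ), AN (m + 1) c' 1 l' ∧ c' ≤ c + (2 * s + 3) ∧
      (∀ f, Avail l f → Avail l' f) ∧
      Avail l' (fun z => bif z 0 then g₁ z else g₀ z) := by
  have hv : ∀ l : List (BF (m + 1)), Avail l (fun x : Fin (m + 1) → Bool => x 0) :=
    fun l => Or.inr ⟨0, rfl⟩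
  rcases h0 with ⟨b0, h0⟩ | ⟨k0, hk0, hs0, ha0⟩ <;> rcases h1 with ⟨b1, h1⟩ | ⟨k1, hk1, hs1, ha1⟩
  · cases b0 <;> cases b1
    · refine ⟨_, _, AN.and _ _ _ _ _ hl (hv l) hN, by omega, fun f hf => F2_avail_cons hf, ?_⟩
      have : (fun z : Fin (m + 1) → Bool => bif z 0 then g₁ z else g₀ z) =
          fun z => z 0 && !z 0 := by
        funext z
        rw [h0, h1]
        cases z 0 <;> rfl
      rw [this]
      exact F2_head
    · refine ⟨l, c, hl, by omega, fun f hf => hf, ?_⟩
      have : (fun z : Fin (m + 1) → Bool => bif z 0 then g₁ z else g₀ z) = fun z => z 0 := by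
        funext z
        rw [h0, h1]
        cases z 0 <;> rfl
      rw [this]
      exact hv l
    · refine ⟨l, c, hl, by omega, fun f hf => hf, ?_⟩
      have : (fun z : Fin (m + 1) → Bool => bif z 0 then g₁ z else g₀ z) = fun z => !z 0 := by
        funext z
        rw [h0, h1]
        cases z 0 <;> rfl
      rw [this]
      exact hN
    · refine ⟨_, _, AN.or _ _ _ _ _ hl (hv l) hN, by omega, fun f hf => F2_avail_cons hf, ?_⟩
      have : (fun z : Fin (m + 1) → Bool => bif z 0 then g₁ z else g₀ z) =
          fun z => z 0 || !z 0 := by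
        funext z
        rw [h0, h1]
        cases z 0 <;> rfl
      rw [this]
      exact F2_head
  · -- g₀ constant, g₁ computed
    have hA := F2_app hk1 c 1 l hl
    cases b0
    · refine ⟨_, _, AN.and _ _ _ _ _ hA (hv _) (F2_avail_app' ha1), by omega,
        fun f hf => F2_avail_cons (F2_avail_app hf), ?_⟩
      have : (fun z : Fin (m + 1) → Bool => bif z 0 then g₁ z else g₀ z) =
          fun z => z 0 && g₁ z := by
        funext z
        rw [h0]
        cases z 0 <;> simp
      rw [this]
      exact F2_head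
    · refine ⟨_, _, AN.or _ _ _ _ _ hA (F2_avail_app hN) (F2_avail_app' ha1), by omega,
        fun f hf => F2_avail_cons (F2_avail_app hf), ?_⟩
      have : (fun z : Fin (m + 1) → Bool => bif z 0 then g₁ z else g₀ z) =
          fun z => (!z 0) || g₁ z := by
        funext z
        rw [h0]
        cases z 0 <;> simp
      rw [this]
      exact F2_head
  · -- g₀ computed, g₁ constant
    have hA := F2_app hk0 c 1 l hl
    cases b1
    · refine ⟨_, _, AN.and _ _ _ _ _ hA (F2_avail_app hN) (F2_avail_app' ha0), by omega,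
        fun f hf => F2_avail_cons (F2_avail_app hf), ?_⟩
      have : (fun z : Fin (m + 1) → Bool => bif z 0 then g₁ z else g₀ z) =
          fun z => (!z 0) && g₀ z := by
        funext z
        rw [h1]
        cases z 0 <;> simp
      rw [this]
      exact F2_head
    · refine ⟨_, _, AN.or _ _ _ _ _ hA (hv _) (F2_avail_app' ha0), by omega,
        fun f hf => F2_avail_cons (F2_avail_app hf), ?_⟩
      have : (fun z : Fin (m + 1) → Bool => bif z 0 then g₁ z else g₀ z) =
          fun z => z 0 || g₀ z := by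
        funext z
        rw [h1]
        cases z 0 <;> simp
      rw [this]
      exact F2_head
  · -- both computed
    have hA := F2_app hk0 _ 1 _ (F2_app hk1 c 1 l hl)
    have hB := AN.and _ _ _ _ _ hA (hv _) (F2_avail_app (F2_avail_app' ha1))
    have hC := AN.and _ _ _ _ _ hB (F2_avail_cons (F2_avail_app (F2_avail_app hN)))
      (F2_avail_cons (F2_avail_app' ha0))
    have hD := AN.or _ _ _ _ _ hC (F2_avail_cons F2_head) F2_head
    refine ⟨_, _, hD, by omega, fun f hf => F2_avail_cons (F2_avail_cons (F2_avail_cons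
      (F2_avail_app (F2_avail_app hf)))), ?_⟩
    have : (fun z : Fin (m + 1) → Bool => bif z 0 then g₁ z else g₀ z) =
        fun z => (z 0 && g₁ z) || ((!z 0) && g₀ z) := by
      funext z
      cases z 0 <;> simp
    rw [this]
    exact F2_head

theorem y_F2 : Y_F2 := by
  intro m s M g₀ g₁ h
  have key : ∀ K, K ≤ M → ∃ (l : List (BF (m + 1))) (c : ℕ), AN (m + 1) c 1 l ∧
      c ≤ K * (2 * s + 3) ∧ Avail l (fun x : Fin (m + 1) → Bool => !x 0) ∧
      ∀ j, j < K → Avail l (fun z => bif z 0 then g₁ j z else g₀ j z) := by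
    intro K
    induction K with
    | zero =>
      intro _
      refine ⟨_, _, AN.not _ _ _ (fun x => x 0) AN.nil (Or.inr ⟨0, rfl⟩), by simp, F2_head, ?_⟩
      intro j hj
      exact absurd hj (Nat.not_lt_zero j)
    | succ K ih =>
      intro hK
      obtain ⟨l, c, hl, hc, hN, hav⟩ := ih (by omega)
      obtain ⟨l', c', hl', hc', hmono, hnew⟩ := F2_step m s (g₀ K) (g₁ K) (h K (by omega)).1
        (h K (by omega)).2 c l hl hN
      refine ⟨l', c', hl', ?_, hmono _ hN, ?_⟩
      · rw [Nat.succ_mul]
        omega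
      · intro j hj
        rcases Nat.lt_succ_iff_lt_or_eq.1 hj with hj | rfl
        · exact hmono _ (hav j hj)
        · exact hnew
  obtain ⟨l, c, hl, hc, _, hav⟩ := key M le_rfl
  exact ⟨l, c, 1, hl, by omega, le_rfl, hav⟩

end Pool.Agent.H547U4
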