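import Pool.Agent.H547U4.Stm

/-!
# Circuits without NOT gates are monotone circuits
-/

set_option autoImplicit false

namespace Pool.Agent.H547U4

open Pool.Agent.H547R6 Pool.Agent.H547R7 Pool.Agent.H547R8 Pool.Agent.NPC Pool.Agent.H547S1

theorem G_avail {m : ℕ} {l : List (BF m)} {a b : BF m} (ha : Avail l a) (hb : Avail l b)
    (j : Fin 2) : Avail l ((![a, b] : Fin 2 → BF m) j) := by
  fin_cases j
  · exact ha
  · exact hb

theorem G_gates {m s t : ℕ} {l : List (BF m)} (h : AN m s t l) :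
    t = 0 → Gates MB m l ∧ l.length = s := by
  induction h with
  | nil => exact fun _ => ⟨Gates.nil, rfl⟩
  | not s t l a h ha ih => exact fun h0 => absurd h0 (Nat.succ_ne_zero t)
  | and s t l a b h ha hb ih =>
    intro h0
    obtain ⟨h1, h2⟩ := ih h0
    refine ⟨?_, by rw [List.length_cons, h2]⟩
    exact Gates.gate l 2 (fun x => x 0 && x 1) ![a, b] (Or.inl rfl) (G_avail ha hb) h1
  | or s t l a b h ha hb ih =>
    intro h0
    obtain ⟨h1, h2⟩ := ih h0
    refine ⟨?_, by rw [List.length_cons, h2]⟩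
    exact Gates.gate l 2 (fun x => x 0 || x 1) ![a, b] (Or.inr rfl) (G_avail ha hb) h1

theorem y_G : Y_G := by
  rintro m s M g ⟨l, s', t', hl, hs, ht, hg⟩ j hj
  obtain ⟨h1, h2⟩ := G_gates hl (Nat.le_zero.mp ht)
  exact ⟨l, h1, h2.le.trans hs, hg j hj⟩

end Pool.Agent.H547U4
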