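import Pool.Agent.H547U4.Stm
import Pool.Agent.H547S1.T_PBT

/-!
# H1: the hybrid adversary in polynomial time
-/

set_option autoImplicit false

namespace Pool.Agent.H547U4

open Pool.Agent.H547R6 Pool.Agent.H547R7 Pool.Agent.H547R8 Pool.Agent.NPC Pool.Agent.H547S1
open Pool.Agent.H583R2 Pool.Agent.H545R2.KS

theorem H1_pos (p : PosNum) : (Computability.encodePosNum p).length = p.natSize := by
  induction p with
  | one => rfl
  | bit1 p ih => simp [Computability.encodePosNum, PosNum.natSize, ih]
  | bit0 p ih => simp [Computability.encodePosNum, PosNum.natSize, ih]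

theorem H1_num (m : Num) : (Computability.encodeNum m).length = m.natSize := by
  cases m with
  | zero => rfl
  | pos p => exact H1_pos p

theorem H1_len (n : ℕ) : (Computability.encodeNat n).length = Nat.size n := by
  have h := H1_num (n : Num)
  rw [Num.natSize_to_nat, Num.to_of_nat] at h
  exact h

/-- capped value -/
def H1_bc (K : ℕ) (l : List Bool) : ℕ := l.foldr (fun b v => min K (2 * v + b.toNat)) 0

theorem H1_bc_eq (K : ℕ) (l : List Bool) : H1_bc K l = min K (bval l) := by
  induction l with
  | nil => simp [H1_bc, bval]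
  | cons b l ih =>
    have h1 : H1_bc K (b :: l) = min K (2 * H1_bc K l + b.toNat) := rfl
    have h2 : bval (b :: l) = 2 * bval l + b.toNat := rfl
    rw [h1, h2, ih]
    omega

theorem H1_szn (n : ℕ) : H583R2.sz n = 2 * n + 1 := by
  induction n with
  | zero => rfl
  | succ n ih => rw [H583R2.sz_succ, ih]; ring

section

variable {α : Type} [H583R2.TEnc α]

theorem H1_ite {β : Type} [H583R2.TEnc β] {p : α → Prop} [∀ a, Decidable (p a)] {f g : α → β}
    (hp : PF (fun a => decide (p a))) (hf : PF f) (hg : PF g) :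
    PF (fun a => if p a then f a else g a) :=
  (PF.ite hp hf hg).congr fun a => by
    by_cases h : p a
    · simp [h]
    · simp [h]

theorem H1_toNat {b : α → Bool} (hb : PF b) : PF (fun a => (b a).toNat) :=
  (PF.ite hb (PF.const 1) (PF.const 0)).congr fun a => by cases b a <;> rfl

theorem H1_size {n : α → ℕ} (hn : PF n) : PF (fun a => Nat.size (n a)) :=
  (PF.length (PF.encodeNat hn)).congr fun a => H1_len (n a)

theorem H1_bc_pf {K : α → ℕ} {l : α → List Bool} (hK : PF K) (hl : PF l) :
    PF (fun a => H1_bc (K a) (l a)) := by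
  refine PF.foldrAdd (l := l) (s := fun _ => (0:ℕ))
    (f := fun a b v => min (K a) (2 * v + b.toNat)) hl (PF.const 0) ?_ (inc := fun _ => 0)
    (bnd := fun a => H583R2.sz (K a)) (PB.const 0) hK.size ?_
  · exact PF.min (hK.comp PF.fst) (PF.add (PF.mul (PF.const 2) (PF.snd.comp PF.snd))
      (H1_toNat (PF.fst.comp PF.snd)))
  · intro a b _ v
    refine le_trans ?_ (le_max_right _ _)
    rw [H1_szn, H1_szn]
    have := min_le_left (K a) (2 * v + b.toNat)
    omega

theorem H1_En {S : Scheme} (hE : PolyTime S.enc) (b : Bool) {n : α → ℕ} {pk r : α → List Bool}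
    (hn : PF n) (hpk : PF pk) (hr : PF r) : PF (fun a => En S (n a) (pk a) b (r a)) :=
  PBT_fit (pf_eval hn S.len) ((pf_of_polyTime hE).comp (PBT_c4 (PBT_ones hn) hpk
    (PF.const [b]) hr))

theorem H1_hyb {S : Scheme} (N : Polynomial ℕ) (hE : PolyTime S.enc) {n i : α → ℕ}
    {pk c R : α → List Bool} (hn : PF n) (hi : PF i) (hpk : PF pk) (hc : PF c) (hR : PF R) :
    PF (fun a => hyb S N (n a) (pk a) (c a) (R a) (i a)) := by
  refine PF.flatMap (l := fun a => List.range (N.eval (n a)))
    (f := fun a l => if l < i a then En S (n a) (pk a) true (cn S (n a) (R a) l)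
      else if l = i a then c a else En S (n a) (pk a) false (cn S (n a) (R a) l))
    (PF.range (pf_eval hn N)) ?_
  have hn1 : PF (fun p : α × ℕ => n p.1) := hn.comp PF.fst
  have hi1 : PF (fun p : α × ℕ => i p.1) := hi.comp PF.fst
  have hpk1 : PF (fun p : α × ℕ => pk p.1) := hpk.comp PF.fst
  have hc1 : PF (fun p : α × ℕ => c p.1) := hc.comp PF.fst
  have hR1 : PF (fun p : α × ℕ => R p.1) := hR.comp PF.fst
  have hl : PF (fun p : α × ℕ => p.2) := PF.snd
  have hcn : PF (fun p : α × ℕ => cn S (n p.1) (R p.1) p.2) :=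
    PF.take (pf_eval hn1 S.e) (PF.drop (PF.mul hl (pf_eval hn1 S.e)) hR1)
  exact H1_ite (PF.lt hl hi1) (H1_En hE true hn1 hpk1 hcn)
    (H1_ite (PF.natEq hl hi1) hc1 (H1_En hE false hn1 hpk1 hcn))

end

theorem y_H1 : Y_H1 := by
  intro S N A t hE hA
  refine ⟨fun z =>
    if H1_bc (N.eval (spl z).1.length) (((spl (spl (spl z).2).2).2.take
        (N.eval (spl z).1.length)).take (Nat.size (N.eval (spl z).1.length))) <
        N.eval (spl z).1.length then
      A (c4 (ones (spl z).1.length) (spl (spl z).2).1
        (hyb S N (spl z).1.length (spl (spl z).2).1 (spl (spl (spl z).2).2).1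
          (((spl (spl (spl z).2).2).2.drop (N.eval (spl z).1.length)).take
            (N.eval (spl z).1.length * S.e.eval (spl z).1.length))
          (H1_bc (N.eval (spl z).1.length) (((spl (spl (spl z).2).2).2.take
            (N.eval (spl z).1.length)).take (Nat.size (N.eval (spl z).1.length)))))
        (((spl (spl (spl z).2).2).2.drop (N.eval (spl z).1.length)).drop
            (N.eval (spl z).1.length * S.e.eval (spl z).1.length)))
    else [], ?_, ?_⟩
  · apply polyTime_of_pf
    have hn := PF.length PBT_p1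
    have hN := pf_eval hn N
    have hi := H1_bc_pf hN (PF.take (H1_size hN) (PF.take hN PBT_q3))
    have hd := PF.drop hN PBT_q3
    have hm := PF.mul hN (pf_eval hn S.e)
    exact H1_ite (PF.lt hi hN) ((pf_of_polyTime hA).comp (PBT_c4 (PBT_ones hn) PBT_p2
      (H1_hyb N hE hn hi PBT_p2 PBT_p3 (PF.take hm hd)) (PF.drop hm hd))) (PF.const [])
  · intro n pk c ι R w hι hR hw
    simp only [c4, spl_pairBits, PBT_length_ones]
    rw [List.take_left' hι, List.drop_left' hι, List.take_left' hR, List.drop_left' hR, H1_bc_eq]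
    by_cases h : bval (ι.take (Nat.size (N.eval n))) < N.eval n
    · rw [if_pos h, min_eq_right h.le, if_pos h]
    · rw [if_neg h, if_neg]
      omega

end Pool.Agent.H547U4
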