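import Pool.Agent.H547U4.Stm

/-!
# The hybrid argument
-/

set_option autoImplicit false

namespace Pool.Agent.H547U4

open Pool.Agent.H547R6 Pool.Agent.H547R7 Pool.Agent.H547R8 Pool.Agent.NPC Pool.Agent.H547S1

/-- average over the strings of length `m` -/
noncomputable def H2_avg : ℕ → (List Bool → ℝ) → ℝ
  | 0, F => F []
  | m + 1, F => (H2_avg m (fun x => F (false :: x)) + H2_avg m (fun x => F (true :: x))) / 2

theorem H2_succ (m : ℕ) (F : List Bool → ℝ) : H2_avg (m + 1) F =
    (H2_avg m (fun x => F (false :: x)) + H2_avg m (fun x => F (true :: x))) / 2 := rfl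

theorem H2_congr (m : ℕ) : ∀ F G : List Bool → ℝ, (∀ x, x.length = m → F x = G x) →
    H2_avg m F = H2_avg m G := by
  induction m with
  | zero => intro F G h; exact h [] rfl
  | succ m ih =>
    intro F G h
    unfold H2_avg
    rw [ih _ (fun x => G (false :: x)) (fun x hx => h _ (by simp [hx])),
      ih _ (fun x => G (true :: x)) (fun x hx => h _ (by simp [hx]))]

theorem H2_const (m : ℕ) (c : ℝ) : H2_avg m (fun _ => c) = c := by
  induction m with
  | zero => rfl
  | succ m ih => unfold H2_avg; rw [ih]; ring

theorem H2_add (m : ℕ) : ∀ F G : List Bool → ℝ,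
    H2_avg m (fun x => F x + G x) = H2_avg m F + H2_avg m G := by
  induction m with
  | zero => intro F G; rfl
  | succ m ih =>
    intro F G
    unfold H2_avg
    rw [ih (fun x => F (false :: x)), ih (fun x => F (true :: x))]
    ring

theorem H2_mul (m : ℕ) (c : ℝ) : ∀ F : List Bool → ℝ,
    H2_avg m (fun x => c * F x) = c * H2_avg m F := by
  induction m with
  | zero => intro F; rfl
  | succ m ih =>
    intro F
    unfold H2_avg
    rw [ih (fun x => F (false :: x)), ih (fun x => F (true :: x))]
    ring

theorem H2_half (m : ℕ) (F G : List Bool → ℝ) :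
    H2_avg m (fun x => (F x + G x) / 2) = (H2_avg m F + H2_avg m G) / 2 := by
  have h := H2_mul m (1 / 2) (fun x => F x + G x)
  rw [H2_add] at h
  rw [show (fun x => (F x + G x) / 2) = fun x => 1 / 2 * (F x + G x) from
    funext fun x => by ring, h]
  ring

theorem H2_comm (a b : ℕ) : ∀ F : List Bool → List Bool → ℝ,
    H2_avg a (fun x => H2_avg b (fun y => F x y)) =
      H2_avg b (fun y => H2_avg a (fun x => F x y)) := by
  induction a with
  | zero => intro F; rfl
  | succ a ih =>
    intro F
    show (H2_avg a (fun x => H2_avg b (fun y => F (false :: x) y)) +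
      H2_avg a (fun x => H2_avg b (fun y => F (true :: x) y))) / 2 =
      H2_avg b (fun y => (H2_avg a (fun x => F (false :: x) y) +
        H2_avg a (fun x => F (true :: x) y)) / 2)
    rw [H2_half, ih (fun x y => F (false :: x) y), ih (fun x y => F (true :: x) y)]

theorem H2_split (a b : ℕ) : ∀ F : List Bool → ℝ,
    H2_avg (a + b) F = H2_avg a (fun x => H2_avg b (fun y => F (x ++ y))) := by
  induction a with
  | zero => intro F; rw [Nat.zero_add]; rfl
  | succ a ih =>
    intro F
    rw [show a + 1 + b = (a + b) + 1 by ring]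
    show (H2_avg (a + b) (fun x => F (false :: x)) + H2_avg (a + b) (fun x => F (true :: x))) / 2 =
      (H2_avg a (fun x => H2_avg b (fun y => F (false :: x ++ y))) +
        H2_avg a (fun x => H2_avg b (fun y => F (true :: x ++ y)))) / 2
    rw [ih (fun x => F (false :: x)), ih (fun x => F (true :: x))]
    rfl

theorem H2_sum {ι : Type} (s : Finset ι) (m : ℕ) : ∀ F : ι → List Bool → ℝ,
    H2_avg m (fun x => ∑ i ∈ s, F i x) = ∑ i ∈ s, H2_avg m (F i) := by
  induction m with
  | zero => intro F; rfl
  | succ m ih =>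
    intro F
    unfold H2_avg
    rw [ih (fun i x => F i (false :: x)), ih (fun i x => F i (true :: x)),
      ← Finset.sum_add_distrib, Finset.sum_div]

theorem H2_fin (m : ℕ) : ∀ F : List Bool → ℝ,
    (∑ x : Fin m → Bool, F (List.ofFn x)) = 2 ^ m * H2_avg m F := by
  induction m with
  | zero => intro F; simp [H2_avg]
  | succ m ih =>
    intro F
    rw [← (Fin.consEquiv (fun _ : Fin (m + 1) => Bool)).sum_comp, Fintype.sum_prod_type,
      Fintype.sum_bool]
    have e : ∀ b : Bool, ∑ y : Fin m → Bool, F (List.ofFn ((Fin.consEquiv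
        (fun _ : Fin (m + 1) => Bool)) (b, y))) = 2 ^ m * H2_avg m (fun x => F (b :: x)) := by
      intro b
      rw [← ih (fun x => F (b :: x))]
      refine Finset.sum_congr rfl fun y _ => ?_
      congr 1
      simp [Fin.consEquiv]
    rw [e true, e false, H2_succ]
    ring

theorem H2_bval (k : ℕ) : ∀ f : ℕ → ℝ,
    2 ^ k * H2_avg k (fun x => f (bval x)) = ∑ i ∈ Finset.range (2 ^ k), f i := by
  induction k with
  | zero => intro f; simp [H2_avg, bval]
  | succ k ih =>
    intro f
    have e0 : (fun x => f (bval (false :: x))) = fun x => (fun v => f (2 * v)) (bval x) := by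
      funext x; simp [bval]
    have e1 : (fun x => f (bval (true :: x))) = fun x => (fun v => f (2 * v + 1)) (bval x) := by
      funext x; simp [bval]
    rw [H2_succ, e0, e1]
    have h0 := ih (fun v => f (2 * v))
    have h1 := ih (fun v => f (2 * v + 1))
    have h2 : ∑ i ∈ Finset.range (2 ^ (k + 1)), f i =
        ∑ v ∈ Finset.range (2 ^ k), (f (2 * v) + f (2 * v + 1)) := by
      rw [pow_succ, mul_comm]
      generalize 2 ^ k = M
      induction M with
      | zero => simp
      | succ M ihM =>
        rw [Finset.sum_range_succ, show 2 * (M + 1) = 2 * M + 1 + 1 by ring,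
          Finset.sum_range_succ, Finset.sum_range_succ, ihM]
        ring
    rw [h2, Finset.sum_add_distrib, ← h0, ← h1]
    ring

/-- indicator -/
noncomputable def H2_J (p : Bool) : ℝ := if p = true then 1 else 0

theorem H2_pr3 (a b c : ℕ) (P : List Bool → List Bool → List Bool → Bool) :
    (pr fun w : (Fin a → Bool) × (Fin b → Bool) × (Fin c → Bool) =>
      P (List.ofFn w.1) (List.ofFn w.2.1) (List.ofFn w.2.2)) =
    H2_avg a fun s => H2_avg b fun r => H2_avg c fun w => H2_J (P s r w) := by
  unfold pr
  rw [← Finset.sum_boole, Fintype.sum_prod_type]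
  have h1 : ∀ x : Fin a → Bool, (∑ y : (Fin b → Bool) × (Fin c → Bool),
      (if P (List.ofFn x) (List.ofFn y.1) (List.ofFn y.2) = true then (1:ℝ) else 0)) =
      2 ^ b * (2 ^ c * H2_avg b fun r => H2_avg c fun w => H2_J (P (List.ofFn x) r w)) := by
    intro x
    rw [Fintype.sum_prod_type]
    have h2 : ∀ y : Fin b → Bool, (∑ z : Fin c → Bool,
        (if P (List.ofFn x) (List.ofFn y) (List.ofFn z) = true then (1:ℝ) else 0)) =
        2 ^ c * H2_avg c fun w => H2_J (P (List.ofFn x) (List.ofFn y) w) := by
      intro y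
      exact H2_fin c (fun w => H2_J (P (List.ofFn x) (List.ofFn y) w))
    rw [Finset.sum_congr rfl fun y _ => h2 y]
    rw [H2_fin b (fun r => 2 ^ c * H2_avg c fun w => H2_J (P (List.ofFn x) r w)), H2_mul]
  rw [Finset.sum_congr rfl fun x _ => h1 x]
  rw [H2_fin a (fun s => 2 ^ b * (2 ^ c * H2_avg b fun r => H2_avg c fun w =>
    H2_J (P s r w))), H2_mul, H2_mul]
  simp only [Fintype.card_prod, Fintype.card_pi, Fintype.card_bool, Finset.prod_const,
    Finset.card_univ, Fintype.card_fin]
  push_cast
  field_simp

theorem H2_fit (m : ℕ) (l : List Bool) (h : l.length = m) : fit m l = l := by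
  unfold fit
  rw [List.take_left' h]

theorem H2_fit_len (m : ℕ) (l : List Bool) : (fit m l).length = m := by
  unfold fit
  rw [List.length_take, List.length_append, List.length_replicate]
  omega

theorem H2_En_len (S : Scheme) (n : ℕ) (pk : List Bool) (b : Bool) (r : List Bool) :
    (En S n pk b r).length = S.len.eval n := H2_fit_len _ _

theorem H2_flat_len (K m : ℕ) (f : ℕ → List Bool) (h : ∀ i, (f i).length = m) :
    ((List.range K).flatMap f).length = K * m := by
  induction K with
  | zero => simp
  | succ K ih =>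
    rw [List.range_succ, List.flatMap_append, List.length_append, ih]
    simp [h, Nat.add_mul]

theorem H2_cn_eq (S : Scheme) (n i : ℕ) (X Y Z : List Bool) (hX : X.length = i * S.e.eval n)
    (hY : Y.length = S.e.eval n) : cn S n (X ++ (Y ++ Z)) i = Y := by
  unfold cn
  rw [List.drop_left' hX, List.take_left' hY]

theorem H2_cn_ne (S : Scheme) (n i l : ℕ) (hl : l ≠ i) (X Y Y' Z : List Bool)
    (hX : X.length = i * S.e.eval n) (hY : Y.length = S.e.eval n)
    (hY' : Y'.length = S.e.eval n) :
    cn S n (X ++ (Y ++ Z)) l = cn S n (X ++ (Y' ++ Z)) l := by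
  unfold cn
  apply List.ext_getElem?
  intro j
  rw [List.getElem?_take, List.getElem?_take]
  split_ifs with hj
  · rw [List.getElem?_drop, List.getElem?_drop]
    rcases lt_or_gt_of_ne hl with h3 | h3
    · have h4 : (l + 1) * S.e.eval n ≤ i * S.e.eval n := Nat.mul_le_mul_right _ h3
      rw [Nat.add_mul, Nat.one_mul] at h4
      rw [List.getElem?_append_left (by omega), List.getElem?_append_left (by omega)]
    · have h4 : (i + 1) * S.e.eval n ≤ l * S.e.eval n := Nat.mul_le_mul_right _ h3
      rw [Nat.add_mul, Nat.one_mul] at h4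
      rw [List.getElem?_append_right (by omega), List.getElem?_append_right (by omega),
        List.getElem?_append_right (by omega), List.getElem?_append_right (by omega), hY, hY']
  · rfl

/-- the coins of one block are replaced by fresh coins -/
theorem H2_key (S : Scheme) (n K i : ℕ) (hi : i < K) (Ψ : List Bool → List Bool → ℝ)
    (h : ∀ X Y Y' Z r, X.length = i * S.e.eval n → Y.length = S.e.eval n →
      Y'.length = S.e.eval n → Ψ (X ++ (Y ++ Z)) r = Ψ (X ++ (Y' ++ Z)) r) :
    (H2_avg (S.e.eval n) fun r => H2_avg (K * S.e.eval n) fun R => Ψ R r) =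
      H2_avg (K * S.e.eval n) fun R => Ψ R (cn S n R i) := by
  obtain ⟨d, rfl⟩ := Nat.exists_eq_add_of_lt hi
  have hK : (i + d + 1) * S.e.eval n = i * S.e.eval n + (S.e.eval n + d * S.e.eval n) := by ring
  rw [hK, H2_split]
  have e1 : ∀ r : List Bool, r.length = S.e.eval n →
      H2_avg (i * S.e.eval n + (S.e.eval n + d * S.e.eval n)) (fun R => Ψ R r) =
      H2_avg (i * S.e.eval n) fun X => H2_avg (d * S.e.eval n) fun Z => Ψ (X ++ (r ++ Z)) r := by
    intro r hr
    rw [H2_split]
    refine H2_congr _ _ _ fun X hX => ?_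
    rw [H2_split, ← H2_const (S.e.eval n) (H2_avg (d * S.e.eval n) fun Z => Ψ (X ++ (r ++ Z)) r)]
    refine H2_congr _ _ _ fun Y hY => ?_
    refine H2_congr _ _ _ fun Z hZ => ?_
    exact h X Y r Z r hX hY hr
  rw [H2_congr _ _ _ e1, H2_comm]
  refine H2_congr _ _ _ fun X hX => ?_
  rw [H2_split]
  refine H2_congr _ _ _ fun Y hY => ?_
  refine H2_congr _ _ _ fun Z hZ => ?_
  rw [H2_cn_eq S n i X Y Z hX hY]

/-- the prefix of a random string -/
theorem H2_take (k K : ℕ) (hk : k ≤ K) (f : List Bool → ℝ) :
    H2_avg K (fun x => f (x.take k)) = H2_avg k f := by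
  obtain ⟨d, rfl⟩ := Nat.exists_eq_add_of_le hk
  rw [H2_split]
  refine H2_congr _ _ _ fun X hX => ?_
  rw [← H2_const d (f X)]
  refine H2_congr _ _ _ fun Y _ => ?_
  rw [List.take_left' hX]

/-- ciphertexts of the hybrids -/
noncomputable def H2_hy (S : Scheme) (N : Polynomial ℕ) (n : ℕ) (pk : List Bool) (j : ℕ)
    (R : List Bool) : List Bool :=
  (List.range (N.eval n)).flatMap fun l => En S n pk (decide (l < j)) (cn S n R l)

/-- acceptance probability for a given key and ciphertext -/
noncomputable def H2_G (S : Scheme) (A : List Bool → List Bool) (t n : ℕ)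
    (s c : List Bool) : ℝ :=
  H2_avg t fun w => H2_J (decide (A (c4 (ones n) (S.pk (pairBits (ones n) s)) c w) = [true]))

/-- acceptance probabilities of the hybrids -/
noncomputable def H2_P (S : Scheme) (N : Polynomial ℕ) (A : List Bool → List Bool) (t n j : ℕ) :
    ℝ :=
  H2_avg (S.g.eval n) fun s => H2_avg (N.eval n * S.e.eval n) fun R =>
    H2_G S A t n s (H2_hy S N n (S.pk (pairBits (ones n) s)) j R)

theorem H2_rep (S : Scheme) (N : Polynomial ℕ) (encN decN A : List Bool → List Bool)
    (t : Polynomial ℕ) (hR : SpR S N encN) (n : ℕ) (b : Bool) :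
    (rep S N encN decN).acp A t n b = H2_P S N A (t.eval n) n (if b then N.eval n else 0) := by
  unfold Scheme.acp
  have h1 := H2_pr3 (S.g.eval n) ((N * S.e).eval n) (t.eval n) (fun s R w =>
    decide (A (c4 (ones n) (S.pk (pairBits (ones n) s))
      ((rep S N encN decN).ct n s b R) w) = [true]))
  refine Eq.trans h1 ?_
  unfold H2_P
  rw [Polynomial.eval_mul]
  refine H2_congr _ _ _ fun s _ => ?_
  refine H2_congr _ _ _ fun R _ => ?_
  unfold H2_G
  refine H2_congr _ _ _ fun w _ => ?_
  have h2 : (rep S N encN decN).ct n s b R =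
      H2_hy S N n (S.pk (pairBits (ones n) s)) (if b then N.eval n else 0) R := by
    show fit ((N * S.len).eval n) (encN (c4 (ones n) (S.pk (pairBits (ones n) s)) [b] R)) = _
    rw [hR, H2_fit]
    · unfold H2_hy
      rw [List.flatMap_def, List.flatMap_def]
      congr 1
      refine List.map_congr_left fun l hl => ?_
      rw [List.mem_range] at hl
      cases b
      · simp
      · simp [hl]
    · rw [Polynomial.eval_mul]
      exact H2_flat_len _ _ _ fun i => H2_En_len _ _ _ _ _
  rw [h2]

theorem H2_hyb (S : Scheme) (N : Polynomial ℕ) (n : ℕ) (pk R : List Bool) (i : ℕ) (b : Bool) :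
    hyb S N n pk (En S n pk b (cn S n R i)) R i =
      H2_hy S N n pk (if b then i + 1 else i) R := by
  unfold hyb H2_hy
  rw [List.flatMap_def, List.flatMap_def]
  congr 1
  refine List.map_congr_left fun l _ => ?_
  by_cases h1 : l < i
  · rw [if_pos h1]
    cases b
    · simp [h1]
    · simp [Nat.lt_succ_of_lt h1]
  · rw [if_neg h1]
    by_cases h2 : l = i
    · subst h2
      rw [if_pos rfl]
      cases b <;> simp
    · rw [if_neg h2]
      cases b
      · simp [h1]
      · have h3 : ¬ l < i + 1 := by omega
        simp [h3]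

theorem H2_adv (S : Scheme) (N : Polynomial ℕ) (A A' : List Bool → List Bool)
    (t : Polynomial ℕ) (hH : SpH S N A A' t) (n : ℕ) (b : Bool) :
    2 ^ Nat.size (N.eval n) * S.acp A' (N + (N * S.e + t)) n b =
      ∑ i ∈ Finset.range (N.eval n), H2_P S N A (t.eval n) n (if b then i + 1 else i) := by
  have hkK : Nat.size (N.eval n) ≤ N.eval n := Nat.size_le.2 Nat.lt_two_pow_self
  have hK2 : N.eval n ≤ 2 ^ Nat.size (N.eval n) := (Nat.lt_size_self _).le
  -- the function of the number
  let Φ : List Bool → List Bool → ℕ → ℝ := fun s r i => if i < N.eval n then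
    H2_avg (N.eval n * S.e.eval n) fun R => H2_G S A (t.eval n) n s
      (hyb S N n (S.pk (pairBits (ones n) s)) (En S n (S.pk (pairBits (ones n) s)) b r) R i)
    else 0
  have h0 : S.acp A' (N + (N * S.e + t)) n b = H2_avg (S.g.eval n) fun s =>
      H2_avg (S.e.eval n) fun r => H2_avg (N.eval n) fun ι =>
        Φ s r (bval (ι.take (Nat.size (N.eval n)))) := by
    unfold Scheme.acp
    have h1 := H2_pr3 (S.g.eval n) (S.e.eval n) ((N + (N * S.e + t)).eval n) (fun s r w =>
      decide (A' (c4 (ones n) (S.pk (pairBits (ones n) s)) (S.ct n s b r) w) = [true]))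
    refine Eq.trans h1 ?_
    rw [Polynomial.eval_add, Polynomial.eval_add, Polynomial.eval_mul]
    refine H2_congr _ _ _ fun s _ => ?_
    refine H2_congr _ _ _ fun r _ => ?_
    rw [H2_split]
    refine H2_congr _ _ _ fun ι hι => ?_
    rw [H2_split]
    have h2 : ∀ R w : List Bool, R.length = N.eval n * S.e.eval n → w.length = t.eval n →
        H2_J (decide (A' (c4 (ones n) (S.pk (pairBits (ones n) s)) (S.ct n s b r)
          (ι ++ (R ++ w))) = [true])) =
        if bval (ι.take (Nat.size (N.eval n))) < N.eval n then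
          H2_J (decide (A (c4 (ones n) (S.pk (pairBits (ones n) s))
            (hyb S N n (S.pk (pairBits (ones n) s)) (En S n (S.pk (pairBits (ones n) s)) b r) R
              (bval (ι.take (Nat.size (N.eval n))))) w) = [true]))
        else 0 := by
      intro R w hRl hwl
      rw [hH n (S.pk (pairBits (ones n) s)) (S.ct n s b r) ι R w hι hRl hwl]
      split_ifs with hc
      · rfl
      · simp [H2_J]
    by_cases hc : bval (ι.take (Nat.size (N.eval n))) < N.eval n
    · simp only [Φ, if_pos hc]
      refine H2_congr _ _ _ fun R hRl => ?_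
      unfold H2_G
      refine H2_congr _ _ _ fun w hwl => ?_
      rw [h2 R w hRl hwl, if_pos hc]
    · simp only [Φ, if_neg hc]
      rw [← H2_const (N.eval n * S.e.eval n) 0]
      refine H2_congr _ _ _ fun R hRl => ?_
      rw [← H2_const (t.eval n) 0]
      refine H2_congr _ _ _ fun w hwl => ?_
      rw [h2 R w hRl hwl, if_neg hc]
  rw [h0, ← H2_mul]
  have h3 : ∀ s : List Bool, 2 ^ Nat.size (N.eval n) * (H2_avg (S.e.eval n) fun r =>
      H2_avg (N.eval n) fun ι => Φ s r (bval (ι.take (Nat.size (N.eval n))))) =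
      ∑ i ∈ Finset.range (N.eval n), H2_avg (N.eval n * S.e.eval n) fun R =>
        H2_G S A (t.eval n) n s (H2_hy S N n (S.pk (pairBits (ones n) s))
          (if b then i + 1 else i) R) := by
    intro s
    rw [← H2_mul]
    have h4 : ∀ r : List Bool, 2 ^ Nat.size (N.eval n) * (H2_avg (N.eval n) fun ι =>
        Φ s r (bval (ι.take (Nat.size (N.eval n))))) = ∑ i ∈ Finset.range (N.eval n),
        Φ s r i := by
      intro r
      rw [H2_take _ _ hkK (fun x => Φ s r (bval x)), H2_bval]
      refine (Finset.sum_subset (Finset.range_mono hK2) fun i _ hi => ?_).symm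
      rw [Finset.mem_range] at hi
      simp only [Φ, if_neg hi]
    rw [show (fun r => 2 ^ Nat.size (N.eval n) * (H2_avg (N.eval n) fun ι =>
        Φ s r (bval (ι.take (Nat.size (N.eval n)))))) = fun r =>
        ∑ i ∈ Finset.range (N.eval n), Φ s r i from funext h4, H2_sum]
    refine Finset.sum_congr rfl fun i hi => ?_
    rw [Finset.mem_range] at hi
    simp only [Φ, if_pos hi]
    have h5 := H2_key S n (N.eval n) i hi (fun R r => H2_G S A (t.eval n) n s
      (hyb S N n (S.pk (pairBits (ones n) s)) (En S n (S.pk (pairBits (ones n) s)) b r) R i))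
      (fun X Y Y' Z r hX hY hY' => by
        congr 1
        unfold hyb
        rw [List.flatMap_def, List.flatMap_def]
        congr 1
        refine List.map_congr_left fun l _ => ?_
        by_cases hl : l = i
        · have h9 : ¬ l < i := by omega
          simp only [if_neg h9, if_pos hl]
        · rw [H2_cn_ne S n i l hl X Y Y' Z hX hY hY'])
    rw [h5]
    refine H2_congr _ _ _ fun R _ => ?_
    rw [H2_hyb]
  rw [show (fun s => 2 ^ Nat.size (N.eval n) * (H2_avg (S.e.eval n) fun r =>
      H2_avg (N.eval n) fun ι => Φ s r (bval (ι.take (Nat.size (N.eval n)))))) = _ from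
      funext h3, H2_sum]
  rfl

/-- the hybrid argument -/
theorem y_H2 : Y_H2 := by
  intro S N encN decN A A' t hR hH n
  rw [mul_sub, H2_adv S N A A' t hH n true, H2_adv S N A A' t hH n false,
    H2_rep S N encN decN A t hR n true, H2_rep S N encN decN A t hR n false]
  simp only [if_true, Bool.false_eq_true, if_false]
  rw [← Finset.sum_sub_distrib, Finset.sum_range_sub]

end Pool.Agent.H547U4
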